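import Mathlib

/-! Calculus of absolutely continuous functions on the unit interval. -/

set_option autoImplicit false

namespace Pool.Agent.MP_478eab_an.FR

open Set MeasureTheory Filter Topology

/-- `f` is absolutely continuous on `[0,1]` with derivative `g`. -/
structure Ac (f g : ℝ → ℝ) : Prop where
  ac : AbsolutelyContinuousOnInterval f 0 1
  ae : ∀ᵐ x, x ∈ Icc (0 : ℝ) 1 → HasDerivAt f (g x) x

theorem uI : uIcc (0 : ℝ) 1 = Icc 0 1 := uIcc_of_le zero_le_one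

theorem sub_I {a b : ℝ} (ha : a ∈ Icc (0 : ℝ) 1) (hb : b ∈ Icc (0 : ℝ) 1) : uIcc a b ⊆ Icc 0 1 :=
  uIcc_subset_Icc ha hb

theorem ae_ne (a : ℝ) : ∀ᵐ x : ℝ, x ≠ a := by simp [ae_iff]

theorem ae_oo : ∀ᵐ x : ℝ, x ∈ Icc (0 : ℝ) 1 → x ∈ Ioo (0 : ℝ) 1 := by
  filter_upwards [ae_ne 0, ae_ne 1] with x h0 h1 h using ⟨h.1.lt_of_ne h0.symm, h.2.lt_of_ne h1⟩

theorem z0 : (0 : ℝ) ∈ Icc (0 : ℝ) 1 := ⟨le_rfl, zero_le_one⟩

theorem z1 : (1 : ℝ) ∈ Icc (0 : ℝ) 1 := ⟨zero_le_one, le_rfl⟩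

theorem ci {f : ℝ → ℝ} (h : ContinuousOn f (Icc 0 1)) {a b : ℝ} (ha : a ∈ Icc (0 : ℝ) 1)
    (hb : b ∈ Icc (0 : ℝ) 1) : IntervalIntegrable f volume a b :=
  (h.mono (sub_I ha hb)).intervalIntegrable

theorem bi {f : ℝ → ℝ} (h : Measurable f) {C : ℝ} (hC : ∀ x, |f x| ≤ C) (a b : ℝ) :
    IntervalIntegrable f volume a b :=
  (intervalIntegrable_const (c := C)).mono_fun' h.aestronglyMeasurable (Eventually.of_forall hC)

namespace Ac

variable {f g f₁ g₁ : ℝ → ℝ} {a b : ℝ}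

theorem cont (h : Ac f g) : ContinuousOn f (Icc 0 1) := uI ▸ h.ac.continuousOn

theorem dv (h : Ac f g) (ha : a ∈ Icc (0 : ℝ) 1) (hb : b ∈ Icc (0 : ℝ) 1) :
    ∀ᵐ x, x ∈ uIoc a b → deriv f x = g x := by
  filter_upwards [h.ae] with x hx k using (hx (sub_I ha hb (uIoc_subset_uIcc k))).deriv

theorem int (h : Ac f g) (ha : a ∈ Icc (0 : ℝ) 1) (hb : b ∈ Icc (0 : ℝ) 1) :
    IntervalIntegrable g volume a b :=
  (h.ac.mono (uI ▸ sub_I ha hb)).intervalIntegrable_deriv.congr_ae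
    ((ae_restrict_iff' measurableSet_uIoc).2 (h.dv ha hb))

theorem ftc (h : Ac f g) (ha : a ∈ Icc (0 : ℝ) 1) (hb : b ∈ Icc (0 : ℝ) 1) :
    ∫ x in a..b, g x = f b - f a := by
  rw [← (h.ac.mono (uI ▸ sub_I ha hb)).integral_deriv_eq_sub]
  exact (intervalIntegral.integral_congr_ae (h.dv ha hb)).symm

theorem congr (h : Ac f g) (e : ∀ x ∈ Icc (0 : ℝ) 1, g x = g₁ x) : Ac f g₁ :=
  ⟨h.ac, by filter_upwards [h.ae] with x hx k using e x k ▸ hx k⟩

theorem congr_ae (h : Ac f g) (e : ∀ᵐ x, x ∈ Icc (0 : ℝ) 1 → g x = g₁ x) : Ac f g₁ :=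
  ⟨h.ac, by filter_upwards [h.ae, e] with x hx e k using e k ▸ hx k⟩

theorem congr_fun (h : Ac f g) (e : ∀ x ∈ Icc (0 : ℝ) 1, f x = f₁ x) : Ac f₁ g := by
  refine ⟨Tendsto.congr' ?_ h.ac, ?_⟩
  · refine eventually_inf_principal.2 (Eventually.of_forall fun E hE => ?_)
    exact Finset.sum_congr rfl fun i hi => by
      rw [e _ (uI ▸ (hE.1 i hi).1), e _ (uI ▸ (hE.1 i hi).2)]
  · filter_upwards [h.ae, ae_oo] with x hx o k
    refine (hx k).congr_of_eventuallyEq ?_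
    filter_upwards [Ioo_mem_nhds (o k).1 (o k).2] with y hy using (e y (Ioo_subset_Icc_self hy)).symm

theorem const (c : ℝ) : Ac (fun _ => c) fun _ => 0 :=
  ⟨contDiffOn_const.absolutelyContinuousOnInterval,
    Eventually.of_forall fun x _ => hasDerivAt_const x c⟩

theorem id : Ac (fun x => x) fun _ => 1 :=
  ⟨contDiffOn_id.absolutelyContinuousOnInterval, Eventually.of_forall fun x _ => hasDerivAt_id x⟩

theorem add (h : Ac f g) (k : Ac f₁ g₁) : Ac (fun x => f x + f₁ x) fun x => g x + g₁ x :=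
  ⟨h.ac.add k.ac, by filter_upwards [h.ae, k.ae] with x u v w using (u w).add (v w)⟩

theorem sub (h : Ac f g) (k : Ac f₁ g₁) : Ac (fun x => f x - f₁ x) fun x => g x - g₁ x :=
  ⟨h.ac.sub k.ac, by filter_upwards [h.ae, k.ae] with x u v w using (u w).sub (v w)⟩

theorem neg (h : Ac f g) : Ac (fun x => -f x) fun x => -g x :=
  ⟨h.ac.neg, by filter_upwards [h.ae] with x u w using (u w).neg⟩

theorem mul (h : Ac f g) (k : Ac f₁ g₁) :
    Ac (fun x => f x * f₁ x) fun x => g x * f₁ x + f x * g₁ x :=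
  ⟨h.ac.mul k.ac, by filter_upwards [h.ae, k.ae] with x u v w using (u w).mul (v w)⟩

theorem cmul (c : ℝ) (h : Ac f g) : Ac (fun x => c * f x) fun x => c * g x :=
  ⟨h.ac.const_mul c, by filter_upwards [h.ae] with x u w using (u w).const_mul c⟩

theorem sq (h : Ac f g) : Ac (fun x => f x ^ 2) fun x => 2 * f x * g x :=
  ((h.mul h).congr fun _ _ => by ring).congr_fun fun _ _ => by ring

theorem prim (h : IntervalIntegrable g volume 0 1) : Ac (fun x => ∫ s in (0 : ℝ)..x, g s) g :=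
  ⟨h.absolutelyContinuousOnInterval_intervalIntegral (by simp), by
    filter_upwards [h.ae_hasDerivAt_integral] with x hx k using hx (uI ▸ k) 0 (by simp)⟩

theorem of_deriv (h : ∀ x ∈ Icc (0 : ℝ) 1, HasDerivWithinAt f (g x) (Icc 0 1) x)
    (c : ContinuousOn g (Icc 0 1)) : Ac f g :=
  ((const (f 0)).add (prim (ci c z0 z1))).congr (fun _ _ => zero_add _) |>.congr_fun fun x hx => by
    rw [intervalIntegral.integral_eq_sub_of_hasDerivAt_of_le hx.1
      (fun y hy => (h y ⟨hy.1, hy.2.trans hx.2⟩).continuousWithinAt.mono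
        (Icc_subset_Icc_right hx.2))
      (fun y hy => (h y ⟨hy.1.le, hy.2.le.trans hx.2⟩).hasDerivAt
        (Icc_mem_nhds hy.1 (hy.2.trans_le hx.2))) (ci c z0 hx)]
    ring

theorem deriv (h : Ac f g) (c : ContinuousOn g (Icc 0 1)) (ha : a ∈ Icc (0 : ℝ) 1) :
    HasDerivWithinAt f (g a) (Icc 0 1) a := by
  have : Fact (a ∈ Icc (0 : ℝ) 1) := ⟨ha⟩
  refine ((intervalIntegral.integral_hasDerivWithinAt_right (h.int z0 ha)
    (c.stronglyMeasurableAtFilter_nhdsWithin measurableSet_Icc a) (c a ha)).const_add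
      (f 0)).congr (fun x hx => ?_) ?_
  · rw [h.ftc z0 hx]; ring
  · rw [h.ftc z0 ha]; ring

theorem derivAt (h : Ac f g) (c : ContinuousOn g (Icc 0 1)) (ha : a ∈ Ioo (0 : ℝ) 1) :
    HasDerivAt f (g a) a := (h.deriv c (Ioo_subset_Icc_self ha)).hasDerivAt (Icc_mem_nhds ha.1 ha.2)

theorem comp (h : Ac f g) {φ φ' : ℝ → ℝ} {U : Set ℝ} (hU : U.OrdConnected)
    (hφ : ContDiffOn ℝ 1 φ U) (d : ∀ y ∈ U, HasDerivAt φ (φ' y) y) (m : MapsTo f (Icc 0 1) U) :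
    Ac (fun x => φ (f x)) fun x => φ' (f x) * g x := by
  refine ⟨?_, by filter_upwards [h.ae] with x u w using (d _ (m w)).comp x (u w)⟩
  obtain ⟨p, hp, lo⟩ := isCompact_Icc.exists_isMinOn ⟨0, z0⟩ h.cont
  obtain ⟨q, hq, hi⟩ := isCompact_Icc.exists_isMaxOn ⟨0, z0⟩ h.cont
  obtain ⟨K, hK⟩ := (hφ.mono (hU.out (m hp) (m hq))).exists_lipschitzOnWith (by decide)
    (convex_Icc _ _) isCompact_Icc
  refine squeeze_zero' (Eventually.of_forall fun _ => Finset.sum_nonneg fun _ _ => dist_nonneg) ?_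
    (by simpa using Tendsto.const_mul (K : ℝ) h.ac)
  refine eventually_inf_principal.2 (Eventually.of_forall fun E hE => ?_)
  rw [Finset.mul_sum]
  refine Finset.sum_le_sum fun i hi' => ?_
  have u := uI ▸ (hE.1 i hi').1
  have v := uI ▸ (hE.1 i hi').2
  exact hK.dist_le_mul _ ⟨lo u, hi u⟩ _ ⟨lo v, hi v⟩

theorem inv (h : Ac f g) (p : ∀ x ∈ Icc (0 : ℝ) 1, 0 < f x) :
    Ac (fun x => (f x)⁻¹) fun x => -g x / f x ^ 2 :=
  (h.comp (φ := fun y => y⁻¹) (φ' := fun y => -(y ^ 2)⁻¹) ordConnected_Ioi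
    ((contDiffOn_inv ℝ).mono fun _ hy => ne_of_gt hy) (fun _ hy => hasDerivAt_inv (ne_of_gt hy))
    p).congr fun _ _ => by ring

theorem exp (h : Ac f g) : Ac (fun x => Real.exp (f x)) fun x => Real.exp (f x) * g x :=
  h.comp ordConnected_univ Real.contDiff_exp.contDiffOn (fun y _ => Real.hasDerivAt_exp y)
    (mapsTo_univ _ _)

theorem mono (h : Ac f g) (ha : a ∈ Icc (0 : ℝ) 1) (hb : b ∈ Icc (0 : ℝ) 1) (l : a ≤ b)
    (p : ∀ᵐ x, x ∈ Ioo a b → 0 ≤ g x) : f a ≤ f b := by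
  rw [← sub_nonneg, ← h.ftc ha hb]
  refine intervalIntegral.integral_nonneg_of_ae_restrict l ((ae_restrict_iff' measurableSet_Icc).2 ?_)
  filter_upwards [p, ae_ne a, ae_ne b] with x p u v k
  exact p ⟨k.1.lt_of_ne u.symm, k.2.lt_of_ne v⟩

theorem mono' (h : Ac f g) (ha : a ∈ Icc (0 : ℝ) 1) (hb : b ∈ Icc (0 : ℝ) 1) (l : a ≤ b)
    (p : ∀ x ∈ Icc a b, 0 ≤ g x) : f a ≤ f b :=
  h.mono ha hb l (Eventually.of_forall fun x k => p x (Ioo_subset_Icc_self k))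

theorem anti' (h : Ac f g) (ha : a ∈ Icc (0 : ℝ) 1) (hb : b ∈ Icc (0 : ℝ) 1) (l : a ≤ b)
    (p : ∀ x ∈ Icc a b, g x ≤ 0) : f b ≤ f a :=
  neg_le_neg_iff.1 (h.neg.mono' ha hb l fun x k => neg_nonneg.2 (p x k))

theorem refl (h : Ac f g) : Ac (fun x => f (1 - x)) fun x => -g (1 - x) := by
  have i : IntervalIntegrable (fun x => -g (1 - x)) volume 0 1 := by
    have := ((h.int z1 z0).comp_sub_left 1).neg
    rwa [sub_self, sub_zero] at this
  refine (((const (f 1)).add (prim i)).congr fun _ _ => zero_add _).congr_fun fun x hx => ?_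
  rw [intervalIntegral.integral_neg, intervalIntegral.integral_comp_sub_left, sub_zero,
    h.ftc ⟨by linarith [hx.2], by linarith [hx.1]⟩ z1]
  ring

/-- A bound for the derivative bounds the increment. -/
theorem lip (h : Ac f g) (ha : a ∈ Icc (0 : ℝ) 1) (hb : b ∈ Icc (0 : ℝ) 1) (l : a ≤ b) {K : ℝ}
    (p : ∀ x ∈ Icc a b, |g x| ≤ K) : |f b - f a| ≤ K * (b - a) := by
  have u := ((id.cmul K).sub h).mono' ha hb l fun x k => by linarith [abs_le.1 (p x k)]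
  have v := ((id.cmul K).add h).mono' ha hb l fun x k => by linarith [abs_le.1 (p x k)]
  rw [abs_le]
  constructor <;> linarith

/-- A bound for the logarithmic derivative. -/
theorem log {r : ℝ → ℝ} (h : Ac f fun x => r x * f x) (p : ∀ x ∈ Icc (0 : ℝ) 1, 0 ≤ f x) {K : ℝ}
    (hK : ∀ x ∈ Icc (0 : ℝ) 1, |r x| ≤ K) (ha : a ∈ Icc (0 : ℝ) 1) (hb : b ∈ Icc (0 : ℝ) 1) :
    (1 - K * |a - b|) * f a ≤ f b := by
  have e : ∀ s t : ℝ, Real.exp s * f a ≤ Real.exp t * f b → (1 + (s - t)) * f a ≤ f b :=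
    fun s t k => by
      have k1 : Real.exp (s - t) * f a ≤ f b := by
        rwa [Real.exp_sub, div_mul_eq_mul_div, div_le_iff₀' (Real.exp_pos _)]
      exact (mul_le_mul_of_nonneg_right (by linarith [Real.add_one_le_exp (s - t)]) (p a ha)).trans k1
  rcases le_total a b with l | l
  · have := e _ _ (((id.cmul K).exp.mul h).mono' ha hb l fun x k => by
      have i : x ∈ Icc (0 : ℝ) 1 := ⟨ha.1.trans k.1, k.2.trans hb.2⟩
      have := mul_nonneg (mul_nonneg (Real.exp_pos (K * x)).le (p x i))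
        (show 0 ≤ K + r x by linarith [abs_le.1 (hK x i)])
      linarith)
    rw [abs_of_nonpos (sub_nonpos.2 l)]
    linarith
  · have := e _ _ (((id.cmul (-K)).exp.mul h).anti' hb ha l fun x k => by
      have i : x ∈ Icc (0 : ℝ) 1 := ⟨hb.1.trans k.1, k.2.trans ha.2⟩
      have := mul_nonneg (mul_nonneg (Real.exp_pos (-K * x)).le (p x i))
        (show 0 ≤ K - r x by linarith [abs_le.1 (hK x i)])
      linarith)
    rw [abs_of_nonneg (sub_nonneg.2 l)]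
    linarith

end Ac

/-- The last zero before a point where the function is positive. -/
theorem last_zero {f : ℝ → ℝ} {a b : ℝ} (l : a ≤ b) (c : ContinuousOn f (Icc a b)) (ha : f a ≤ 0)
    (hb : 0 < f b) : ∃ z ∈ Icc a b, f z = 0 ∧ ∀ x ∈ Ioc z b, 0 < f x := by
  have cl : IsCompact (Icc a b ∩ f ⁻¹' {0}) :=
    isCompact_Icc.of_isClosed_subset (c.preimage_isClosed_of_isClosed isClosed_Icc
      isClosed_singleton) inter_subset_left
  obtain ⟨z, hz, mx⟩ := cl.exists_isGreatest (by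
    obtain ⟨z, hz, e⟩ := intermediate_value_Icc l c ⟨ha, hb.le⟩
    exact ⟨z, hz, e⟩)
  refine ⟨z, hz.1, hz.2, fun x hx => not_le.1 fun n => ?_⟩
  obtain ⟨y, hy, e⟩ := intermediate_value_Icc hx.2
    (c.mono (Icc_subset_Icc_left (hz.1.1.trans hx.1.le))) ⟨n, hb.le⟩
  exact (hx.1.trans_le hy.1).not_ge (mx ⟨⟨(hz.1.1.trans hx.1.le).trans hy.1, hy.2⟩, e⟩)

/-- Barrier from the left. -/
theorem Ac.bar {f g : ℝ → ℝ} (h : Ac f g) {a b : ℝ} (ha : a ∈ Icc (0 : ℝ) 1)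
    (hb : b ∈ Icc (0 : ℝ) 1) (l : a ≤ b) (h0 : f a ≤ 0)
    (p : ∀ᵐ x, x ∈ Icc a b → 0 < f x → g x ≤ 0) : f b ≤ 0 := by
  by_contra n
  obtain ⟨z, hz, e, k⟩ := last_zero l (h.cont.mono (Icc_subset_Icc ha.1 hb.2)) h0 (not_le.1 n)
  have := h.neg.mono ⟨ha.1.trans hz.1, hz.2.trans hb.2⟩ hb hz.2 (by
    filter_upwards [p] with x p u
    exact neg_nonneg.2 (p ⟨hz.1.trans u.1.le, u.2.le⟩ (k x ⟨u.1, u.2.le⟩)))
  exact n (by linarith)

theorem ae_refl {P : ℝ → Prop} (h : ∀ᵐ x, P x) : ∀ᵐ x, P (1 - x) :=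
  (Measure.measurePreserving_sub_left volume (1 : ℝ)).quasiMeasurePreserving.ae h

theorem rI {x : ℝ} (h : x ∈ Icc (0 : ℝ) 1) : 1 - x ∈ Icc (0 : ℝ) 1 :=
  ⟨by linarith [h.2], by linarith [h.1]⟩

/-- Barrier from the right. -/
theorem Ac.bar' {f g : ℝ → ℝ} (h : Ac f g) {a b : ℝ} (ha : a ∈ Icc (0 : ℝ) 1)
    (hb : b ∈ Icc (0 : ℝ) 1) (l : a ≤ b) (h0 : f b ≤ 0)
    (p : ∀ᵐ x, x ∈ Icc a b → 0 < f x → 0 ≤ g x) : f a ≤ 0 := by
  have := h.refl.bar (rI hb) (rI ha) (by linarith) (by simpa using h0) (by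
    filter_upwards [ae_refl p] with x p u v
    exact neg_nonpos.2 (p ⟨by linarith [u.2], by linarith [u.1]⟩ v))
  simpa using this

end Pool.Agent.MP_478eab_an.FR
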