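import Pool.Agent.MP_478eab_an.FR.Pert

/-! The second variation along a short dipole and the curvature of the switching function. -/

set_option autoImplicit false

namespace Pool.Agent.MP_478eab_an.FR

open Set MeasureTheory Filter Topology

theorem aml {a b A B : ℝ} (ha : |a| ≤ A) (hb : |b| ≤ B) : |a * b| ≤ A * B :=
  (abs_mul a b).trans_le (mul_le_mul ha hb (abs_nonneg _) ((abs_nonneg _).trans ha))

theorem Dat.Q_symm (D : Dat) (u v : ℝ) : D.Q v u = D.Q u v := by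
  have e : ∀ z, D.w₀ v u z = -D.w₀ u v z := fun z => by unfold Dat.w₀; ring
  simp only [Dat.Q, e, neg_sq]
  ring

/-- The curvature of the switching function on a hole. -/
noncomputable def Dat.s (D : Dat) (x : ℝ) : ℝ :=
  3 * D.θ x - D.θ x * (D.ψ x)⁻¹ + 2 * D.σ x ^ 2 + 2 * (D.σ x * D.ρ x)

namespace Dat.Ok

variable {D : Dat} {a b u v : ℝ}

theorem dA (h : D.Ok) {y r : ℝ → ℝ} (H : Hom D.θ D.σ y r) :
    Ac (fun x => y x * D.θ x ^ 2) fun x => (r x + 2 * D.σ x) * (y x * D.θ x ^ 2) :=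
  (H.d1.mul h.S.d1.sq).congr fun _ _ => by ring

theorem pA (_h : D.Ok) {y r : ℝ → ℝ} (H : Hom D.θ D.σ y r) :
    ∀ x ∈ Icc (0 : ℝ) 1, 0 ≤ y x * D.θ x ^ 2 := fun x hx =>
  mul_nonneg (H.pos x hx).le (sq_nonneg _)

theorem rA (h : D.Ok) : (∀ x ∈ Icc (0 : ℝ) 1, |D.ρ₁ x + 2 * D.σ x| ≤ 5 * D.k) ∧
    ∀ x ∈ Icc (0 : ℝ) 1, |D.ρ₂ x + 2 * D.σ x| ≤ 5 * D.k := by
  constructor <;> intro x hx <;> rw [abs_le] <;> constructor <;>
    linarith [h.b₁ x hx, h.b₂ x hx, abs_le.1 (h.S.sg hx), h.S.kp]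

theorem a₁ (h : D.Ok) (ha : a ∈ Icc (0 : ℝ) 1) (hb : b ∈ Icc (0 : ℝ) 1) (l : a ≤ b) :
    |D.y₂ b * (D.y₁ b * D.θ b ^ 2 - D.y₁ a * D.θ a ^ 2)| ≤ 5 * (b - a) := by
  rw [mul_sub]
  refine ((h.dA h.H₁).cmul (D.y₂ b)).lip ha hb l fun x hx => ?_
  have i : x ∈ Icc (0 : ℝ) 1 := ⟨ha.1.trans hx.1, hx.2.trans hb.2⟩
  have m := h.H₂.d1.anti' i hb hx.2 fun s hs => mul_nonpos_of_nonpos_of_nonneg
    (h.b₂ s ⟨i.1.trans hs.1, hs.2.trans hb.2⟩).1 (h.H₂.pos s ⟨i.1.trans hs.1, hs.2.trans hb.2⟩).le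
  refine (aml ((abs_of_pos (h.H₂.pos b hb)).trans_le m) (aml (A := 5 * (D.ρ₁ x - D.ρ₂ x))
    (abs_le.2 ⟨?_, ?_⟩) (abs_of_nonneg (h.pA h.H₁ x i)).le)).trans_eq ?_
  · linarith [h.b₁ x i, h.b₂ x i]
  · linarith [h.b₁ x i, h.b₂ x i]
  · linear_combination 5 * h.W x i

theorem a₂ (h : D.Ok) (ha : a ∈ Icc (0 : ℝ) 1) (hb : b ∈ Icc (0 : ℝ) 1) (l : a ≤ b) :
    |D.y₁ a * (D.y₂ b * D.θ b ^ 2 - D.y₂ a * D.θ a ^ 2)| ≤ 5 * (b - a) := by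
  rw [mul_sub]
  refine ((h.dA h.H₂).cmul (D.y₁ a)).lip ha hb l fun x hx => ?_
  have i : x ∈ Icc (0 : ℝ) 1 := ⟨ha.1.trans hx.1, hx.2.trans hb.2⟩
  have m := h.H₁.d1.mono' ha i hx.1 fun s hs => mul_nonneg
    (h.b₁ s ⟨ha.1.trans hs.1, hs.2.trans i.2⟩).1 (h.H₁.pos s ⟨ha.1.trans hs.1, hs.2.trans i.2⟩).le
  refine (aml ((abs_of_pos (h.H₁.pos a ha)).trans_le m) (aml (A := 5 * (D.ρ₁ x - D.ρ₂ x))
    (abs_le.2 ⟨?_, ?_⟩) (abs_of_nonneg (h.pA h.H₂ x i)).le)).trans_eq ?_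
  · linarith [h.b₁ x i, h.b₂ x i]
  · linarith [h.b₁ x i, h.b₂ x i]
  · linear_combination 5 * h.W x i

theorem en (h : D.Ok) {y r : ℝ → ℝ} (H : Hom D.θ D.σ y r) (ha : a ∈ Icc (0 : ℝ) 1)
    (hb : b ∈ Icc (0 : ℝ) 1) (l : a ≤ b) (β : ℝ) :
    ∫ x in a..b, D.ψ x * D.θ x * (y x * β) ^ 2 ≤
      D.ψ b * (y b * β) ^ 2 * (2 * r b - D.ρ b) - D.ψ a * (y a * β) ^ 2 * (2 * r a - D.ρ a) := by
  have A := ((h.dψ.mul (H.d1.mul (Ac.const β)).sq).mul ((H.d2.cmul 2).sub h.dρ))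
  rw [← A.ftc ha hb]
  refine intervalIntegral.integral_mono_on l (ci ((h.dψ.cont.fun_mul h.S.d1.cont).fun_mul
    ((H.d1.cont.fun_mul continuousOn_const).fun_pow 2)) ha hb) (A.int ha hb) fun x hx => ?_
  have i : x ∈ Icc (0 : ℝ) 1 := ⟨ha.1.trans hx.1, hx.2.trans hb.2⟩
  have p := h.ψpos x i
  have := mul_nonneg (mul_nonneg p.le (sq_nonneg (y x * β))) (sq_nonneg (r x))
  have := mul_nonneg (mul_nonneg p.le (sq_nonneg (y x * β)))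
    (mul_nonneg (h.S.pos x i).le (inv_pos.2 p).le)
  linarith

theorem ψle (h : D.Ok) (ha : a ∈ Icc (0 : ℝ) 1) (hb : b ∈ Icc (0 : ℝ) 1)
    (hd : D.k * |a - b| ≤ 1 / 10 ^ 4) : D.ψ a ≤ 1001 / 1000 * D.ψ b := by
  have := h.dψ.log (fun x hx => (h.ψpos x hx).le) h.aψ ha hb
  have := mul_le_mul_of_nonneg_right hd (h.ψpos a ha).le
  have := h.ψpos a ha
  linarith

theorem dip (h : D.Ok) (hu : u ∈ Icc (0 : ℝ) 1) (hv : v ∈ Icc (0 : ℝ) 1) (l : u ≤ v)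
    (hd : D.k * (v - u) ≤ 1 / 10 ^ 4) : 91 / 100 * (D.ψ u * (v - u)) ≤ D.Q u v := by
  have kp := h.S.kp
  have d0 := sub_nonneg.2 l
  have I : ∀ x ∈ Icc u v, x ∈ Icc (0 : ℝ) 1 := fun x hx => ⟨hu.1.trans hx.1, hx.2.trans hv.2⟩
  have eL : ∀ z ≤ u, D.w₀ u v z = D.y₁ z * (D.y₂ v * D.θ v ^ 2 - D.y₂ u * D.θ u ^ 2) := fun z hz => by
    simp only [w₀, Kr, min_eq_left hz, max_eq_right hz, min_eq_left (hz.trans l),
      max_eq_right (hz.trans l)]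
    ring
  have eR : ∀ z, v ≤ z → D.w₀ u v z = D.y₂ z * (D.y₁ v * D.θ v ^ 2 - D.y₁ u * D.θ u ^ 2) :=
    fun z hz => by
      simp only [w₀, Kr, min_eq_right hz, max_eq_left hz, min_eq_right (l.trans hz),
        max_eq_left (l.trans hz)]
      ring
  have bM : ∀ z ∈ Icc u v, |D.w₀ u v z| ≤ 5 * (v - u) := fun z hz => by
    have e : D.w₀ u v z = D.y₁ z * (D.y₂ v * D.θ v ^ 2 - D.y₂ z * D.θ z ^ 2) +
        D.y₂ z * (D.y₁ z * D.θ z ^ 2 - D.y₁ u * D.θ u ^ 2) := by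
      simp only [w₀, Kr, min_eq_left hz.2, max_eq_right hz.2, min_eq_right hz.1, max_eq_left hz.1]
      ring
    rw [e]
    linarith [abs_add_le (D.y₁ z * (D.y₂ v * D.θ v ^ 2 - D.y₂ z * D.θ z ^ 2))
      (D.y₂ z * (D.y₁ z * D.θ z ^ 2 - D.y₁ u * D.θ u ^ 2)), h.a₂ (I z hz) hv hz.2,
      h.a₁ hu (I z hz) hz.1]
  have b2 : ∀ z ∈ Icc u v, D.w₀ u v z ^ 2 ≤ 25 * (v - u) ^ 2 := fun z hz => by
    have := pow_le_pow_left₀ (abs_nonneg _) (bM z hz) 2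
    rw [sq_abs] at this
    linarith
  have pl : ∀ z ∈ Icc u v, D.ψ z ≤ 2 * D.ψ u := fun z hz => by
    have := h.ψle (I z hz) hu ((mul_le_mul_of_nonneg_left (by
      rw [abs_of_nonneg (sub_nonneg.2 hz.1)]; linarith [hz.2]) kp.le).trans hd)
    linarith [h.ψpos u hu]
  have m1 := (((h.H₁.d1.cmul (D.y₂ v * D.θ v ^ 2)).sub (h.H₂.d1.cmul (D.y₁ u * D.θ u ^ 2))).sub
    (Ac.id.cmul (1 - 5 * D.k * (v - u)))).mono' hu hv l fun x hx => by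
      have i := I x hx
      have k1 := (h.dA h.H₂).log (h.pA h.H₂) h.rA.2 i hv
      have k2 := (h.dA h.H₁).log (h.pA h.H₁) h.rA.1 i hu
      rw [abs_of_nonpos (sub_nonpos.2 hx.2)] at k1
      rw [abs_of_nonneg (sub_nonneg.2 hx.1)] at k2
      have k3 := mul_nonneg (mul_nonneg kp.le (sub_nonneg.2 hx.1)) (h.pA h.H₂ x i)
      have k4 := mul_nonneg (mul_nonneg kp.le (sub_nonneg.2 hx.2)) (h.pA h.H₁ x i)
      have k5 := mul_le_mul_of_nonneg_right (show (1 - 5 * D.k * (v - u)) * (D.y₂ x * D.θ x ^ 2) ≤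
        D.y₂ v * D.θ v ^ 2 by linarith) (mul_nonneg (h.b₁ x i).1 (h.H₁.pos x i).le)
      have k6 := mul_le_mul_of_nonneg_right (show (1 - 5 * D.k * (v - u)) * (D.y₁ x * D.θ x ^ 2) ≤
        D.y₁ u * D.θ u ^ 2 by linarith) (mul_nonneg (neg_nonneg.2 (h.b₂ x i).1) (h.H₂.pos x i).le)
      have k7 := congrArg ((1 - 5 * D.k * (v - u)) * ·) (h.W x i)
      linarith
  have m2 : (1 - 5 * D.k * (v - u)) * (v - u) ≤ D.w₀ u v v - D.w₀ u v u := by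
    rw [eR v le_rfl, eL u le_rfl]
    linarith
  have m3 := abs_le.1 (aml (h.dψ.lip hu hv l fun x hx => aml (h.aψ x (I x hx))
    ((abs_of_pos (h.ψpos x (I x hx))).trans_le (pl x hx))) (bM v ⟨l, le_rfl⟩))
  have c := (h.dψ.cont.fun_mul h.S.d1.cont).fun_mul ((h.cw hu hv).fun_pow 2)
  have i1 : ∫ x in (0 : ℝ)..u, D.ψ x * D.θ x * D.w₀ u v x ^ 2 ≤
      D.ψ u * (25 * (v - u) ^ 2) * (9 * D.k) := by
    rw [intervalIntegral.integral_congr (g := fun x => D.ψ x * D.θ x * (D.y₁ x * _) ^ 2)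
      fun x hx => by rw [uIcc_of_le hu.1] at hx; simp only [eL x hx.2]; rfl]
    refine (h.en h.H₁ z0 hu hu.1 _).trans ?_
    rw [h.l, h.ρ0, ← eL u le_rfl, mul_zero, sub_zero, mul_zero, sub_zero]
    refine (le_abs_self _).trans (aml (aml (abs_of_pos (h.ψpos u hu)).le
      ((abs_sq _).trans_le (b2 u ⟨le_rfl, l⟩))) (abs_le.2 ⟨?_, ?_⟩)) <;>
      linarith [h.b₁ u hu, abs_le.1 (h.aρ hu)]
  have i2 : ∫ x in v..1, D.ψ x * D.θ x * D.w₀ u v x ^ 2 ≤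
      2 * D.ψ u * (25 * (v - u) ^ 2) * (9 * D.k) := by
    rw [intervalIntegral.integral_congr (g := fun x => D.ψ x * D.θ x * (D.y₂ x * _) ^ 2)
      fun x hx => by rw [uIcc_of_le hv.2] at hx; simp only [eR x hx.1]; rfl]
    refine (h.en h.H₂ hv z1 hv.2 _).trans ?_
    rw [h.r, h.ρ1, ← eR v le_rfl, mul_zero, sub_zero, mul_zero, zero_sub]
    refine (neg_le_abs _).trans (aml (aml ((abs_of_pos (h.ψpos v hv)).trans_le (pl v ⟨l, le_rfl⟩))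
      ((abs_sq _).trans_le (b2 v ⟨l, le_rfl⟩))) (abs_le.2 ⟨?_, ?_⟩)) <;>
      linarith [h.b₂ v hv, abs_le.1 (h.aρ hv)]
  have i3 := intervalIntegral.integral_mono_on l (ci c hu hv) (intervalIntegrable_const
    (c := 2 * D.ψ u * D.k ^ 2 * (25 * (v - u) ^ 2))) fun x hx => (le_abs_self _).trans (aml (aml
      ((abs_of_pos (h.ψpos x (I x hx))).trans_le (pl x hx))
      ((abs_of_pos (h.S.pos x (I x hx))).trans_le (h.S.le x (I x hx))))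
      ((abs_sq _).trans_le (b2 x hx)))
  rw [intervalIntegral.integral_const, smul_eq_mul] at i3
  rw [Q, ← intervalIntegral.integral_add_adjacent_intervals (ci c z0 hu) (ci c hu z1),
    ← intervalIntegral.integral_add_adjacent_intervals (ci c hu hv) (ci c hv z1)]
  have p := mul_nonneg (h.ψpos u hu).le d0
  have f1 := mul_le_mul_of_nonneg_left m2 (h.ψpos u hu).le
  have f2 := mul_le_mul_of_nonneg_left hd p
  have f3 := mul_le_mul_of_nonneg_left (pow_le_pow_left₀ (mul_nonneg kp.le d0) hd 2) p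
  linarith

theorem dφ (h : D.Ok) :
    Ac (fun x => (2 * D.σ x + D.ρ x) * D.ψ x) fun x => D.ψ x * (D.s x - 2 * D.m x) :=
  (((h.S.d2.cmul 2).add h.dρ).mul h.dψ).congr fun _ _ => by unfold s; ring

theorem osc (h : D.Ok) (ha : a ∈ Icc (0 : ℝ) 1) (hb : b ∈ Icc (0 : ℝ) 1) (l : a ≤ b) :
    |D.s b - D.s a| ≤ 65 * D.k ^ 3 * (b - a) := by
  refine (((((h.S.d1.cmul 3).sub (h.S.d1.mul (h.dψ.inv h.ψpos))).add (h.S.d2.sq.cmul 2)).add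
    ((h.S.d2.mul h.dρ).cmul 2)).congr (g₁ := fun x => 3 * (D.σ x * D.θ x) +
      (D.σ x + D.ρ x) * (D.θ x * (D.ψ x)⁻¹) + 4 * (D.σ x * (D.θ x - D.m x - D.σ x ^ 2)) +
      2 * (D.ρ x * (D.θ x - D.m x - D.σ x ^ 2)) + 2 * (D.σ x * (D.θ x - D.θ x * (D.ψ x)⁻¹ -
        D.ρ x ^ 2 - 2 * D.σ x * D.ρ x))) fun x hx => by
        have := (h.ψpos x hx).ne'
        field_simp
        ring).lip ha hb l fun x hx => ?_
  have i : x ∈ Icc (0 : ℝ) 1 := ⟨ha.1.trans hx.1, hx.2.trans hb.2⟩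
  have s1 := h.S.sg i
  have s2 := h.aρ i
  have t0 := h.S.pos x i
  have t1 := h.S.le x i
  have p0 := mul_pos t0 (inv_pos.2 (h.ψpos x i))
  have p1 := h.plo i
  have q1 := abs_le.1 (aml s1 s1)
  have q2 := abs_le.1 (aml s2 s2)
  have q3 := abs_le.1 (aml s1 s2)
  have s3 : |D.θ x - D.m x - D.σ x ^ 2| ≤ 2 * D.k ^ 2 := abs_le.2
    ⟨by linarith [h.S.m1 x], by linarith [h.S.m0 x, sq_nonneg (D.σ x), sq_nonneg D.k]⟩
  have s4 : |D.θ x - D.θ x * (D.ψ x)⁻¹ - D.ρ x ^ 2 - 2 * D.σ x * D.ρ x| ≤ 17 * D.k ^ 2 := abs_le.2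
    ⟨by linarith, by linarith [sq_nonneg (D.ρ x), sq_nonneg D.k]⟩
  have r1 := abs_le.1 (aml s1 ((abs_of_pos t0).trans_le t1))
  have r2 := abs_le.1 (aml ((abs_add_le _ _).trans (add_le_add s1 s2)) ((abs_of_pos p0).trans_le p1))
  have r3 := abs_le.1 (aml s1 s3)
  have r4 := abs_le.1 (aml s2 s3)
  have r5 := abs_le.1 (aml s1 s4)
  rw [abs_le]
  constructor <;> linarith

end Dat.Ok

end Pool.Agent.MP_478eab_an.FR
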