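import Pool.Agent.MP_478eab_an.FR.Sol

/-! The Green function of the linearised problem and the adjoint state. -/

set_option autoImplicit false

namespace Pool.Agent.MP_478eab_an.FR

open Set MeasureTheory Filter Topology

theorem Hom.flux {k : ℝ} {m θ σ y ρ : ℝ → ℝ} (S : Sol k m θ σ) (H : Hom θ σ y ρ) :
    Ac (fun x => θ x ^ 2 * (ρ x * y x)) fun x => θ x ^ 3 * y x :=
  (S.d1.sq.mul (H.d2.mul H.d1)).congr fun _ _ => by ring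

/-- The data. -/
structure Dat where
  k : ℝ
  m : ℝ → ℝ
  θ : ℝ → ℝ
  σ : ℝ → ℝ
  y₁ : ℝ → ℝ
  ρ₁ : ℝ → ℝ
  y₂ : ℝ → ℝ
  ρ₂ : ℝ → ℝ

namespace Dat

variable (D : Dat)

structure Ok : Prop where
  S : Sol D.k D.m D.θ D.σ
  H₁ : Hom D.θ D.σ D.y₁ D.ρ₁
  H₂ : Hom D.θ D.σ D.y₂ D.ρ₂
  l : D.ρ₁ 0 = 0
  r : D.ρ₂ 1 = 0
  b₁ : ∀ x ∈ Icc (0 : ℝ) 1, 0 ≤ D.ρ₁ x ∧ D.ρ₁ x ≤ 3 * D.k ∧ D.σ x ≤ 2 * D.ρ₁ x
  b₂ : ∀ x ∈ Icc (0 : ℝ) 1, D.ρ₂ x ≤ 0 ∧ -(3 * D.k) ≤ D.ρ₂ x ∧ 2 * D.ρ₂ x ≤ D.σ x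
  W : ∀ x ∈ Icc (0 : ℝ) 1, D.θ x ^ 2 * D.y₁ x * D.y₂ x * (D.ρ₁ x - D.ρ₂ x) = 1

/-- The Green operator. -/
noncomputable def G (f : ℝ → ℝ) (x : ℝ) : ℝ :=
  D.y₂ x * (∫ s in (0 : ℝ)..x, D.y₁ s * f s) +
    D.y₁ x * ((∫ s in (0 : ℝ)..1, D.y₂ s * f s) - ∫ s in (0 : ℝ)..x, D.y₂ s * f s)

/-- Its derivative. -/
noncomputable def J (f : ℝ → ℝ) (x : ℝ) : ℝ :=
  D.ρ₂ x * D.y₂ x * (∫ s in (0 : ℝ)..x, D.y₁ s * f s) +
    D.ρ₁ x * D.y₁ x * ((∫ s in (0 : ℝ)..1, D.y₂ s * f s) - ∫ s in (0 : ℝ)..x, D.y₂ s * f s)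

/-- The kernel. -/
noncomputable def Kr (z y : ℝ) : ℝ := D.y₁ (min z y) * D.y₂ (max z y)

/-- The adjoint state divided by the solution. -/
noncomputable def q : ℝ → ℝ := D.G D.θ

/-- Its logarithmic derivative. -/
noncomputable def ρ (x : ℝ) : ℝ := D.J D.θ x * (D.q x)⁻¹

/-- The switching function. -/
noncomputable def ψ (x : ℝ) : ℝ := D.θ x ^ 2 * D.q x

end Dat

theorem Sol.dat {k : ℝ} {m θ σ : ℝ → ℝ} (S : Sol k m θ σ) :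
    ∃ D : Dat, D.Ok ∧ D.k = k ∧ D.m = m ∧ D.θ = θ := by
  obtain ⟨y₁, ρ₁, H₁, l, b₁⟩ := S.left
  obtain ⟨y₂, ρ₂, H₂, r, b₂⟩ := S.right
  have A := (((H₁.flux S).mul H₂.d1).sub ((H₂.flux S).mul H₁.d1)).congr (g₁ := fun _ => 0)
    fun _ _ => by ring
  have p := intervalIntegral.intervalIntegral_pos_of_pos_on ((H₁.flux S).int z0 z1)
    (fun x hx => mul_pos (pow_pos (S.pos x (Ioo_subset_Icc_self hx)) 3)
      (H₁.pos x (Ioo_subset_Icc_self hx))) one_pos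
  rw [(H₁.flux S).ftc z0 z1, l] at p
  have c := mul_pos (show 0 < θ 1 ^ 2 * (ρ₁ 1 * y₁ 1) by linarith) (H₂.pos 1 z1)
  set c₀ := θ 1 ^ 2 * (ρ₁ 1 * y₁ 1) * y₂ 1 with e
  refine ⟨⟨k, m, θ, σ, y₁, ρ₁, fun x => c₀⁻¹ * y₂ x, ρ₂⟩, ⟨S, H₁,
    ⟨fun x hx => mul_pos (inv_pos.2 c) (H₂.pos x hx), (H₂.d1.cmul _).congr fun _ _ => by ring,
      H₂.d2⟩, l, r, b₁, b₂, fun x hx => ?_⟩, rfl, rfl, rfl⟩
  have := A.ftc hx z1
  rw [intervalIntegral.integral_zero, r, ← e] at this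
  calc _ = c₀⁻¹ * (θ x ^ 2 * (ρ₁ x * y₁ x) * y₂ x - θ x ^ 2 * (ρ₂ x * y₂ x) * y₁ x) := by ring
    _ = c₀⁻¹ * c₀ := by congr 1; linarith
    _ = 1 := inv_mul_cancel₀ c.ne'

namespace Dat.Ok

variable {D : Dat} {f : ℝ → ℝ}

theorem i₁ (h : D.Ok) (hf : IntervalIntegrable f volume 0 1) :
    Ac (fun x => ∫ s in (0 : ℝ)..x, D.y₁ s * f s) fun s => D.y₁ s * f s :=
  Ac.prim (hf.continuousOn_mul (uI ▸ h.H₁.d1.cont))

theorem i₂ (h : D.Ok) (hf : IntervalIntegrable f volume 0 1) :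
    Ac (fun x => (∫ s in (0 : ℝ)..1, D.y₂ s * f s) - ∫ s in (0 : ℝ)..x, D.y₂ s * f s)
      fun s => -(D.y₂ s * f s) :=
  ((Ac.const _).sub (Ac.prim (hf.continuousOn_mul (uI ▸ h.H₂.d1.cont)))).congr fun _ _ => zero_sub _

theorem dG (h : D.Ok) (hf : IntervalIntegrable f volume 0 1) : Ac (D.G f) (D.J f) :=
  ((h.H₂.d1.mul (h.i₁ hf)).add (h.H₁.d1.mul (h.i₂ hf))).congr fun _ _ => by unfold J; ring

theorem dJ (h : D.Ok) (hf : IntervalIntegrable f volume 0 1) :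
    Ac (fun x => D.θ x ^ 2 * D.J f x) fun x => D.θ x ^ 3 * D.G f x - f x :=
  ((((h.H₂.flux h.S).mul (h.i₁ hf)).add ((h.H₁.flux h.S).mul (h.i₂ hf))).congr fun x hx => by
    unfold G
    linear_combination (-f x) * h.W x hx).congr_fun fun _ _ => by unfold J; ring

theorem J0 (h : D.Ok) : D.J f 0 = 0 := by simp [J, h.l]

theorem J1 (h : D.Ok) : D.J f 1 = 0 := by simp [J, h.r]

theorem mx (h : D.Ok) {g F : ℝ → ℝ} (a : Ac f g) (b : Ac (fun x => D.θ x ^ 2 * g x) F)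
    (g0 : g 0 = 0) (g1 : g 1 = 0) (p : ∀ x ∈ Icc (0 : ℝ) 1, F x ≤ D.θ x ^ 3 * f x) {x : ℝ}
    (hx : x ∈ Icc (0 : ℝ) 1) : 0 ≤ f x := by
  have u := (((h.H₁.flux h.S).mul a).sub (b.mul h.H₁.d1)).mono' z0 hx hx.1 fun s hs => by
    have i : s ∈ Icc (0 : ℝ) 1 := ⟨hs.1, hs.2.trans hx.2⟩
    have := mul_nonneg (sub_nonneg.2 (p s i)) (h.H₁.pos s i).le
    linarith
  have v := (((h.H₂.flux h.S).mul a).sub (b.mul h.H₂.d1)).mono' hx z1 hx.2 fun s hs => by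
    have i : s ∈ Icc (0 : ℝ) 1 := ⟨hx.1.trans hs.1, hs.2⟩
    have := mul_nonneg (sub_nonneg.2 (p s i)) (h.H₂.pos s i).le
    linarith
  simp only [h.l, h.r, g0, g1, mul_zero, zero_mul, sub_self] at u v
  have u' := mul_nonneg u (h.H₂.pos x hx).le
  have v' := mul_nonneg (neg_nonneg.2 v) (h.H₁.pos x hx).le
  calc 0 ≤ _ := add_nonneg u' v'
    _ = f x := by linear_combination f x * h.W x hx

theorem iθ (h : D.Ok) : IntervalIntegrable D.θ volume 0 1 := ci h.S.d1.cont z0 z1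

theorem qlo (h : D.Ok) {x : ℝ} (hx : x ∈ Icc (0 : ℝ) 1) : (D.θ x)⁻¹ ≤ 2 * D.k ^ 2 * D.q x := by
  refine sub_nonneg.1 (h.mx (((h.dG h.iθ).cmul (2 * D.k ^ 2)).sub (h.S.d1.inv h.S.pos))
    ((((h.dJ h.iθ).cmul (2 * D.k ^ 2)).add (h.S.d2.mul h.S.d1)).congr_fun fun s hs => by
      have := (h.S.pos s hs).ne'
      field_simp
      ring) (by simp [h.J0, h.S.l]) (by simp [h.J1, h.S.r]) (fun s hs => ?_) hx)
  have p := h.S.pos s hs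
  have e : D.θ s ^ 3 * (D.θ s)⁻¹ = D.θ s ^ 2 := by field_simp
  have := mul_nonneg p.le (h.S.m0 s)
  have := mul_nonneg p.le (sub_nonneg.2 (h.S.le s hs))
  rw [mul_sub (D.θ s ^ 3), e]
  linarith

theorem qpos (h : D.Ok) : ∀ x ∈ Icc (0 : ℝ) 1, 0 < D.q x := fun x hx =>
  pos_of_mul_pos_left ((inv_pos.2 (h.S.pos x hx)).trans_le ((h.qlo hx).trans_eq (mul_comm _ _)))
    (by positivity)

theorem ψpos (h : D.Ok) : ∀ x ∈ Icc (0 : ℝ) 1, 0 < D.ψ x := fun x hx =>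
  mul_pos (pow_pos (h.S.pos x hx) 2) (h.qpos x hx)

theorem ρq (h : D.Ok) {x : ℝ} (hx : x ∈ Icc (0 : ℝ) 1) : D.ρ x * D.q x = D.J D.θ x := by
  rw [ρ, inv_mul_cancel_right₀ (h.qpos x hx).ne']

theorem dq (h : D.Ok) : Ac D.q fun x => D.ρ x * D.q x :=
  (h.dG h.iθ).congr fun _ hx => (h.ρq hx).symm

theorem dψ (h : D.Ok) : Ac D.ψ fun x => (2 * D.σ x + D.ρ x) * D.ψ x :=
  (h.S.d1.sq.mul h.dq).congr fun _ _ => by unfold ψ; ring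

theorem dΦ (h : D.Ok) : Ac (fun x => D.ρ x * D.ψ x) fun x => D.θ x * D.ψ x - D.θ x :=
  ((h.dJ h.iθ).congr fun _ _ => by unfold ψ q; ring).congr_fun fun x hx => by
    rw [← h.ρq hx, ψ]; ring

theorem dρ (h : D.Ok) :
    Ac D.ρ fun x => D.θ x - D.θ x * (D.ψ x)⁻¹ - D.ρ x ^ 2 - 2 * D.σ x * D.ρ x :=
  ((h.dΦ.mul (h.dψ.inv h.ψpos)).congr fun x hx => by
    have := (h.ψpos x hx).ne'
    field_simp
    ring).congr_fun fun x hx => mul_inv_cancel_right₀ (h.ψpos x hx).ne' _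

theorem ρ0 (h : D.Ok) : D.ρ 0 = 0 := by simp [ρ, h.J0]

theorem ρ1 (h : D.Ok) : D.ρ 1 = 0 := by simp [ρ, h.J1]

theorem plo (h : D.Ok) {x : ℝ} (hx : x ∈ Icc (0 : ℝ) 1) : D.θ x * (D.ψ x)⁻¹ ≤ 2 * D.k ^ 2 := by
  have p := h.S.pos x hx
  have := mul_le_mul_of_nonneg_left (h.qlo hx) (sq_nonneg (D.θ x))
  rw [← div_eq_mul_inv, div_le_iff₀ (h.ψpos x hx), ψ]
  have e : D.θ x ^ 2 * (D.θ x)⁻¹ = D.θ x := by field_simp
  linarith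

theorem bρ (h : D.Ok) {x : ℝ} (hx : x ∈ Icc (0 : ℝ) 1) : D.ρ₂ x ≤ D.ρ x ∧ D.ρ x ≤ D.ρ₁ x := by
  have u := (h.i₁ h.iθ).mono' z0 hx hx.1 fun s hs =>
    (mul_pos (h.H₁.pos s ⟨hs.1, hs.2.trans hx.2⟩) (h.S.pos s ⟨hs.1, hs.2.trans hx.2⟩)).le
  have v := (h.i₂ h.iθ).anti' hx z1 hx.2 fun s hs => neg_nonpos.2
    (mul_pos (h.H₂.pos s ⟨hx.1.trans hs.1, hs.2⟩) (h.S.pos s ⟨hx.1.trans hs.1, hs.2⟩)).le
  rw [intervalIntegral.integral_same] at u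
  rw [sub_self] at v
  have w : 0 ≤ D.ρ₁ x - D.ρ₂ x := by linarith [(h.b₁ x hx).1, (h.b₂ x hx).1]
  have u' := mul_nonneg (mul_nonneg w (h.H₂.pos x hx).le) u
  have v' := mul_nonneg (mul_nonneg w (h.H₁.pos x hx).le) v
  constructor <;> refine le_of_mul_le_mul_right ?_ (h.qpos x hx) <;> rw [h.ρq hx] <;>
    unfold J q G <;> linarith

theorem aρ (h : D.Ok) {x : ℝ} (hx : x ∈ Icc (0 : ℝ) 1) : |D.ρ x| ≤ 3 * D.k :=
  abs_le.2 ⟨(h.b₂ x hx).2.1.trans (h.bρ hx).1, (h.bρ hx).2.trans (h.b₁ x hx).2.1⟩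

theorem aψ (h : D.Ok) : ∀ x ∈ Icc (0 : ℝ) 1, |2 * D.σ x + D.ρ x| ≤ 5 * D.k := fun x hx => by
  have := abs_le.1 (h.aρ hx)
  have := abs_le.1 (h.S.sg hx)
  rw [abs_le]
  constructor <;> linarith

theorem cK (h : D.Ok) : ContinuousOn (fun p : ℝ × ℝ => D.Kr p.1 p.2) (Icc 0 1 ×ˢ Icc 0 1) :=
  (h.H₁.d1.cont.comp (by fun_prop) fun _ hp =>
    ⟨le_min hp.1.1 hp.2.1, (min_le_left _ _).trans hp.1.2⟩).mul
    (h.H₂.d1.cont.comp (by fun_prop) fun _ hp =>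
      ⟨hp.1.1.trans (le_max_left _ _), max_le hp.1.2 hp.2.2⟩)

theorem cK₁ (h : D.Ok) {z : ℝ} (hz : z ∈ Icc (0 : ℝ) 1) : ContinuousOn (D.Kr z) (Icc 0 1) :=
  h.cK.comp (f := fun y => (z, y)) (by fun_prop) fun _ hy => ⟨hz, hy⟩

theorem cK₂ (h : D.Ok) {y : ℝ} (hy : y ∈ Icc (0 : ℝ) 1) :
    ContinuousOn (fun z => D.Kr z y) (Icc 0 1) :=
  h.cK.comp (f := fun z => (z, y)) (by fun_prop) fun _ hz => ⟨hz, hy⟩

theorem G_eq (h : D.Ok) (hf : IntervalIntegrable f volume 0 1) {z : ℝ} (hz : z ∈ Icc (0 : ℝ) 1) :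
    D.G f z = ∫ y in (0 : ℝ)..1, D.Kr z y * f y := by
  have i := hf.continuousOn_mul (uI ▸ h.cK₁ hz)
  have j := hf.continuousOn_mul (uI ▸ h.H₂.d1.cont)
  rw [← intervalIntegral.integral_add_adjacent_intervals (b := z) (i.mono_set (uI ▸ sub_I z0 hz))
    (i.mono_set (uI ▸ sub_I hz z1)), G, intervalIntegral.integral_interval_sub_left j
    (j.mono_set (uI ▸ sub_I z0 hz)), ← intervalIntegral.integral_const_mul,
    ← intervalIntegral.integral_const_mul]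
  congr 1 <;> refine intervalIntegral.integral_congr fun y hy => ?_
  · rw [uIcc_of_le hz.1] at hy
    simp only [Kr, min_eq_right hy.2, max_eq_left hy.2]
    ring
  · rw [uIcc_of_le hz.2] at hy
    simp only [Kr, min_eq_left hy.1, max_eq_right hy.1]
    ring

end Dat.Ok

end Pool.Agent.MP_478eab_an.FR
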