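import Pool.Agent.MP_478eab_an.FR.Main

/-! In dimension one every maximiser of the total population size is `κ` times the indicator of a
union of at most `20000 (1 + √(κ / μ))` intervals. -/

set_option autoImplicit false

namespace Pool.Agent.Results.MP_478eab_an.FragmentationRate

open Set MeasureTheory

/-- The admissible class on `(0,1)`: measurable, `0 ≤ m ≤ κ` almost everywhere, mean `m₀`. -/
def Adm (κ m₀ : ℝ) (m : ℝ → ℝ) : Prop :=
  AEMeasurable m (volume.restrict (Ioo 0 1)) ∧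
    (∀ᵐ x ∂volume.restrict (Ioo 0 1), 0 ≤ m x ∧ m x ≤ κ) ∧ ∫ x in Ioo 0 1, m x = m₀

/-- `θ > 0` in `(0,1)` solves `μ θ'' + θ (m - θ) = 0`, `θ'(0) = θ'(1) = 0`, in integrated form:
`θ` is differentiable on `[0,1]`, `μ θ'(x) = ∫₀ˣ θ (θ - m)`, and this vanishes at `x = 1`. -/
def IsSol (μ : ℝ) (m θ : ℝ → ℝ) : Prop :=
  (∀ x ∈ Ioo (0 : ℝ) 1, 0 < θ x) ∧
    (∀ x ∈ Icc (0 : ℝ) 1,
      HasDerivWithinAt θ (μ⁻¹ * ∫ s in (0 : ℝ)..x, θ s * (θ s - m s)) (Icc 0 1) x) ∧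
    ∫ s in (0 : ℝ)..1, θ s * (θ s - m s) = 0

/-- `m` is admissible and its total population is at least that of every admissible competitor. -/
def IsMaximiser (κ m₀ μ : ℝ) (m : ℝ → ℝ) : Prop :=
  Adm κ m₀ m ∧ ∃ θ, IsSol μ m θ ∧
    ∀ m' θ', Adm κ m₀ m' → IsSol μ m' θ' → ∫ x in Ioo 0 1, θ' x ≤ ∫ x in Ioo 0 1, θ x

open Pool.Agent.MP_478eab_an.FR in
theorem result : ∀ κ m₀ μ : ℝ, 0 < m₀ → m₀ < κ → 0 < μ → ∀ m : ℝ → ℝ, IsMaximiser κ m₀ μ m →
    ∃ T : Finset (ℝ × ℝ), (T.card : ℝ) ≤ 20000 * (1 + √(κ / μ)) ∧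
      ∀ᵐ x ∂volume.restrict (Ioo 0 1),
        m x = (⋃ p ∈ T, Ioo p.1 p.2).indicator (fun _ => κ) x := by
  rintro κ m₀ μ h0 h1 hμ m ⟨⟨am, bm, im⟩, θ, ⟨tp, td, tn⟩, mx⟩
  have κ0 := h0.trans h1
  have μ0 := hμ.ne'
  have kk : √(κ / μ) ^ 2 = κ / μ := Real.sq_sqrt (by positivity)
  have io : ∀ f : ℝ → ℝ, ∫ x in (0 : ℝ)..1, f x = ∫ x in Ioo 0 1, f x := fun f => by
    rw [intervalIntegral.integral_of_le zero_le_one, integral_Ioc_eq_integral_Ioo]
  obtain ⟨M, mM, M0, M1, eM⟩ : ∃ M : ℝ → ℝ, Measurable M ∧ (∀ x, 0 ≤ M x) ∧ (∀ x, M x ≤ κ / μ) ∧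
      ∀ᵐ x ∂volume.restrict (Ioo 0 1), m x = μ * M x := by
    refine ⟨fun x => max 0 (min (am.mk m x) κ) / μ, (measurable_const.max
      (am.measurable_mk.min measurable_const)).div_const μ,
      fun x => div_nonneg (le_max_left _ _) hμ.le,
      fun x => div_le_div_of_nonneg_right (max_le κ0.le (min_le_right _ _)) hμ.le, ?_⟩
    filter_upwards [am.ae_eq_mk, bm] with x e b
    rw [← e, min_eq_left b.2, max_eq_right b.1, mul_div_cancel₀ _ μ0]
  have eM' := (ae_restrict_iff' measurableSet_Ioo).1 eM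
  have tc : ContinuousOn (fun x => μ⁻¹ * θ x) (Icc 0 1) := fun x hx =>
    ((td x hx).const_mul μ⁻¹).continuousWithinAt
  have A := Ac.prim ((((ci tc z0 z1).sub (bi mM (fun x => abs_le.2
    ⟨by linarith [M0 x, M1 x], M1 x⟩) 0 1))).continuousOn_mul (uI ▸ tc))
  have e : ∀ x ∈ Icc (0 : ℝ) 1, ∫ s in (0 : ℝ)..x, μ⁻¹ * θ s * (μ⁻¹ * θ s - M s) =
      μ⁻¹ * (μ⁻¹ * ∫ s in (0 : ℝ)..x, θ s * (θ s - m s)) := fun x hx => by
    rw [← intervalIntegral.integral_const_mul, ← intervalIntegral.integral_const_mul]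
    refine intervalIntegral.integral_congr_ae ?_
    filter_upwards [eM', ae_oo] with s q o i
    rw [q (o (sub_I z0 hx (uIoc_subset_uIcc i)))]
    field_simp
  have R : Raw √(κ / μ) M (fun x => μ⁻¹ * θ x) _ :=
    ⟨by positivity, mM, M0, fun x => (M1 x).trans_eq kk.symm, fun x hx => mul_pos (inv_pos.2 hμ) (tp x hx),
      Ac.of_deriv (fun x hx => e x hx ▸ (td x hx).const_mul μ⁻¹) A.cont, A, by simp,
      by rw [e 1 z1, tn, mul_zero, mul_zero]⟩
  obtain ⟨D, hD, e1, e2, e3⟩ := R.sol.dat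
  obtain ⟨T, hT, w⟩ := hD.count (by
    rw [e1, e2, e3]
    intro m' θ' τ' R' i
    have q : ∀ x ∈ Icc (0 : ℝ) 1, ∫ s in (0 : ℝ)..x, μ * θ' s * (μ * θ' s - μ * m' s) =
        μ * (μ * τ' x) := fun x hx => by
      rw [← ((R'.d2.ftc z0 hx).trans (by rw [R'.l, sub_zero]) : _ = τ' x),
        ← intervalIntegral.integral_const_mul, ← intervalIntegral.integral_const_mul]
      exact intervalIntegral.integral_congr fun s _ => by ring
    have := mx (fun x => μ * m' x) (fun x => μ * θ' x)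
      ⟨(measurable_const.mul R'.meas).aemeasurable, Filter.Eventually.of_forall fun x =>
        ⟨mul_nonneg hμ.le (R'.m0 x), (le_div_iff₀' hμ).1 ((R'.m1 x).trans_eq kk)⟩, by
          rw [integral_const_mul, ← io, i, io, ← integral_const_mul, ← im]
          exact (integral_congr_ae eM).symm⟩
      ⟨fun x hx => mul_pos hμ (R'.pos x hx), fun x hx => by
        rw [q x hx, inv_mul_cancel_left₀ μ0]
        exact (R'.d1.deriv R'.d2.cont hx).const_mul μ, by rw [q 1 z1, R'.r, mul_zero, mul_zero]⟩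
    rw [integral_const_mul] at this
    rw [intervalIntegral.integral_const_mul, io, io]
    exact (le_inv_mul_iff₀ hμ).2 this)
  rw [e1] at hT
  rw [e1, e2, kk] at w
  refine ⟨T, by linarith, ?_⟩
  filter_upwards [eM, (ae_restrict_iff' measurableSet_Ioo).2 w] with x q w
  rw [q, w]
  by_cases k : x ∈ ⋃ p ∈ T, Ioo p.1 p.2
  · rw [indicator_of_mem k, indicator_of_mem k, mul_div_cancel₀ _ μ0]
  · rw [indicator_of_notMem k, indicator_of_notMem k, mul_zero]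

end Pool.Agent.Results.MP_478eab_an.FragmentationRate
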