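import Pool.Agent.MP_478eab_an.FR.Move

/-! At most two intervals in each short window, and the count. -/

set_option autoImplicit false

namespace Pool.Agent.MP_478eab_an.FR

open Set MeasureTheory Filter Topology

namespace Dat.Ok

variable {D : Dat} {a b : ℝ}

theorem window (h : D.Ok) (mx : Cmp D.k D.m D.θ) (ha : a ∈ Icc (0 : ℝ) 1) (hb : b ∈ Icc (0 : ℝ) 1)
    (l : a ≤ b) (hd : D.k * (b - a) ≤ 1 / 10 ^ 4) : ∃ I J : ℝ × ℝ, Ioo I.1 I.2 ⊆ Ioo a b ∧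
      Ioo J.1 J.2 ⊆ Ioo a b ∧
      ∀ᵐ x, x ∈ Ioo a b → (D.m x = D.k ^ 2 ↔ x ∈ Ioo I.1 I.2 ∨ x ∈ Ioo J.1 J.2) := by
  have kp := h.S.kp
  have k2 := pow_pos kp 2
  obtain ⟨E, eE⟩ : ∃ E, E = D.m ⁻¹' {D.k ^ 2} := ⟨_, rfl⟩
  obtain ⟨B, eB⟩ : ∃ B, B = D.m ⁻¹' {0} := ⟨_, rfl⟩
  have hE : MeasurableSet E := eE ▸ h.S.meas (measurableSet_singleton _)
  have hB : MeasurableSet B := eB ▸ h.S.meas (measurableSet_singleton _)
  have iE : ∀ x, x ∈ E ↔ D.m x = D.k ^ 2 := fun x => by rw [eE]; rfl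
  have iB : ∀ x, x ∈ B ↔ D.m x = 0 := fun x => by rw [eB]; rfl
  have mE : ∀ x ∈ E, D.k ^ 2 ≤ D.m x := fun x hx => ((iE x).1 hx).ge
  have mB : ∀ x ∈ B, D.m x + D.k ^ 2 ≤ D.k ^ 2 := fun x hx => by rw [(iB x).1 hx, zero_add]
  have cov : ∀ᵐ x, x ∈ Icc (0 : ℝ) 1 → x ∈ E ∨ x ∈ B := by
    simpa only [iE, iB] using h.bang mx
  obtain ⟨c, cB, cE⟩ : ∃ c, (∀ v, LA B v → D.ψ v ≤ c) ∧ ∀ u, LA E u → c ≤ D.ψ u :=
    ⟨sSup (D.ψ '' {v | LA B v}), fun v L => le_csSup ((isCompact_Icc.bddAbove_image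
      h.dψ.cont).mono (image_mono fun _ k => LA.mem k)) ⟨v, L, rfl⟩, fun u L => Real.sSup_le
        (by rintro _ ⟨v, Lv, rfl⟩; exact h.first mx hE hB k2 mE mB L Lv) (h.ψpos u L.mem).le⟩
  have pE : ∀ᵐ x, x ∈ Icc (0 : ℝ) 1 → x ∈ E → 0 ≤ D.ψ x - c := by
    filter_upwards [ae_LA hE] with x p i j using sub_nonneg.2 (cE x (p i j))
  have pB : ∀ᵐ x, x ∈ Icc (0 : ℝ) 1 → x ∈ B → D.ψ x - c ≤ 0 := by
    filter_upwards [ae_LA hB] with x p i j using sub_nonpos.2 (cB x (p i j))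
  have mv : ∀ u v, LA E u → LA B v → D.ψ u - c = 0 → D.ψ v - c = 0 → 2 * D.k ^ 2 * D.Q u v ≤ _ :=
    fun u v => h.move mx hE hB k2 mE mB
      (by filter_upwards [cov, pB] with x p q i n using
        (p i).resolve_right fun j => by linarith [q i j])
      (by filter_upwards [cov, pE] with x p q i n using
        (p i).resolve_left fun j => by linarith [q i j])
  have I : ∀ x ∈ Icc a b, x ∈ Icc (0 : ℝ) 1 := fun x hx => ⟨ha.1.trans hx.1, hx.2.trans hb.2⟩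
  have sh : ∀ x ∈ Icc a b, ∀ y ∈ Icc a b, D.k * |x - y| ≤ 1 / 10 ^ 4 := fun x hx y hy =>
    (mul_le_mul_of_nonneg_left (abs_le.2 ⟨by linarith [hx.1, hy.2], by linarith [hx.2, hy.1]⟩)
      kp.le).trans hd
  have dp : ∀ u ∈ Icc a b, ∀ v ∈ Icc a b, v < u → D.ψ v - c = 0 → 0 < 182 / 100 * D.k ^ 2 * c ∧
      182 / 100 * D.k ^ 2 * c * (u - v) ≤ 2 * D.k ^ 2 * D.Q v u := fun u hu v hv l e => by
    have q := h.dip (I v hv) (I u hu) l.le ((mul_le_mul_of_nonneg_left (le_abs_self _) kp.le).trans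
      (sh u hu v hv))
    have p := h.ψpos v (I v hv)
    rw [sub_eq_zero.1 e] at p q
    exact ⟨by positivity, by linarith [mul_le_mul_of_nonneg_left q k2.le]⟩
  have os : ∀ x ∈ Icc a b, |D.s x - D.s a| ≤ 65 / 10 ^ 4 * D.k ^ 2 := fun x hx => by
    have := mul_le_mul_of_nonneg_left ((mul_le_mul_of_nonneg_left (le_abs_self _) kp.le).trans
      (sh x hx a ⟨le_rfl, l⟩)) k2.le
    linarith [h.osc ha (I x hx) hx.1]
  have d := (h.dψ.sub (Ac.const c)).congr (g₁ := fun x => (2 * D.σ x + D.ρ x) * D.ψ x)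
    fun _ _ => sub_zero _
  have bd : ∀ p ∈ Icc a b, D.ψ p - c = 0 → ∀ x ∈ Icc a b, ∀ z, z ≤ 10065 / 10 ^ 4 * D.k ^ 2 →
      D.ψ x * z ≤ 101 / 100 * D.k ^ 2 * c := fun p hp e x hx z hz => by
    have q := mul_le_mul_of_nonneg_left (h.ψle (I x hx) (I p hp) (sh x hx p hp)) k2.le
    have := mul_le_mul_of_nonneg_left hz (h.ψpos x (I x hx)).le
    have := mul_pos k2 (h.ψpos p (I p hp))
    rw [sub_eq_zero.1 e] at q this
    linarith
  rcases le_total (D.k ^ 2) (D.s a) with s | s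
  · obtain ⟨p, q, ap, pq, qb, w⟩ := win hE hB ha hb fun P => by
      obtain ⟨p, q, ap, pq, qb, iA, p0, g0, g⟩ := pat hE hB cov d h.dφ.cont pE pB ha hb
        (fun u hu v hv l Lu Lv u0 v0 => ⟨(dp u hu v hv l v0).1,
          ((dp u hu v hv l v0).2.trans_eq (by rw [D.Q_symm])).trans (mv u v Lu Lv u0 v0)⟩) P
      have ip : p ∈ Icc a b := ⟨ap, pq.le.trans qb⟩
      have := (h.dφ.add (Ac.id.cmul (101 / 100 * D.k ^ 2 * c))).mono (I p ip)
        (I q ⟨ap.trans pq.le, qb⟩) pq.le (by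
          filter_upwards [iA] with x n i
          have j : x ∈ Icc a b := ⟨ap.trans i.1.le, i.2.le.trans qb⟩
          have := bd p ip p0 x j (2 * D.k ^ 2 - D.s x) (by linarith [abs_le.1 (os x j)])
          rw [(iE x).1 (n i)]
          linarith)
      linarith [mul_pos g0 (sub_pos.2 pq)]
    refine ⟨(a, p), (q, b), Ioo_subset_Ioo_right (pq.trans (qb l)), Ioo_subset_Ioo_left (ap.trans pq),
      ?_⟩
    filter_upwards [w, cov, ae_ne p, ae_ne q] with x w cv e1 e2 i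
    rw [← iE]
    refine ⟨fun j => ?_, fun j => (cv (I x (Ioo_subset_Icc_self i))).resolve_right
      ((w i).2 fun k => j.elim (fun j => j.2.not_gt k.1) fun j => j.1.not_gt k.2)⟩
    rcases lt_or_gt_of_ne e1 with k | k
    · exact .inl ⟨i.1, k⟩
    · exact .inr ⟨(not_lt.1 fun n => (w i).1 ⟨k, n⟩ j).lt_of_ne e2.symm, i.2⟩
  · obtain ⟨p, q, ap, pq, qb, w⟩ := win hB hE ha hb fun P => by
      obtain ⟨p, q, ap, pq, qb, iA, p0, g0, g⟩ := pat hB hE (cov.mono fun x k i => (k i).symm) d.neg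
        h.dφ.cont.fun_neg (pB.mono fun x k i j => neg_nonneg.2 (k i j))
        (pE.mono fun x k i j => neg_nonpos.2 (k i j)) ha hb
        (fun u hu v hv l Lu Lv u0 v0 => ⟨(dp u hu v hv l (neg_eq_zero.1 v0)).1,
          ((dp u hu v hv l (neg_eq_zero.1 v0)).2.trans (mv v u Lv Lu (neg_eq_zero.1 v0)
            (neg_eq_zero.1 u0))).trans_eq (by rw [abs_neg, abs_neg, add_comm])⟩) P
      have ip : p ∈ Icc a b := ⟨ap, pq.le.trans qb⟩
      have := (h.dφ.neg.add (Ac.id.cmul (101 / 100 * D.k ^ 2 * c))).mono (I p ip)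
        (I q ⟨ap.trans pq.le, qb⟩) pq.le (by
          filter_upwards [iA] with x n i
          have j : x ∈ Icc a b := ⟨ap.trans i.1.le, i.2.le.trans qb⟩
          have := bd p ip (neg_eq_zero.1 p0) x j (D.s x) (by linarith [abs_le.1 (os x j)])
          rw [(iB x).1 (n i)]
          linarith)
      linarith [mul_pos g0 (sub_pos.2 pq)]
    refine ⟨(p, q), (p, q), Ioo_subset_Ioo ap (qb l), Ioo_subset_Ioo ap (qb l), ?_⟩
    filter_upwards [w, cov] with x w cv i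
    rw [← iE, or_self]
    exact ⟨fun j => by_contra fun n => (w i).2 n j,
      fun j => (cv (I x (Ioo_subset_Icc_self i))).resolve_right ((w i).1 j)⟩

theorem count (h : D.Ok) (mx : Cmp D.k D.m D.θ) : ∃ T : Finset (ℝ × ℝ),
    (T.card : ℝ) ≤ 2 * 10 ^ 4 * (1 + D.k) ∧ ∀ᵐ x, x ∈ Ioo (0 : ℝ) 1 →
      D.m x = (⋃ p ∈ T, Ioo p.1 p.2).indicator (fun _ => D.k ^ 2) x := by
  have kp := h.S.kp
  obtain ⟨n, n1, n2⟩ : ∃ n : ℕ, 10 ^ 4 * D.k ≤ n ∧ (n : ℝ) ≤ 10 ^ 4 * D.k + 1 :=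
    ⟨_, Nat.le_ceil _, (Nat.ceil_lt_add_one (by positivity)).le⟩
  have n0 : (0 : ℝ) < n := lt_of_lt_of_le (by positivity) n1
  have w : ∀ i : Fin n, ∃ I J : ℝ × ℝ, _ := fun i =>
    have i1 : (i : ℝ) + 1 ≤ n := by exact_mod_cast i.2
    h.window mx (a := i / n) (b := (i + 1) / n) ⟨by positivity, (div_le_one n0).2 (by linarith)⟩
      ⟨by positivity, (div_le_one n0).2 i1⟩ (div_le_div_of_nonneg_right (by linarith) n0.le) (by
        rw [← sub_div, add_sub_cancel_left, mul_one_div, div_le_iff₀ n0]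
        linarith)
  choose I J hI hJ hw using w
  refine ⟨Finset.univ.image I ∪ Finset.univ.image J, ?_, ?_⟩
  · have : (Finset.univ.image I ∪ Finset.univ.image J).card ≤ n + n :=
      (Finset.card_union_le _ _).trans (add_le_add (Finset.card_image_le.trans (by simp))
        (Finset.card_image_le.trans (by simp)))
    have : ((Finset.univ.image I ∪ Finset.univ.image J).card : ℝ) ≤ n + n := by exact_mod_cast this
    linarith
  filter_upwards [ae_all_iff.2 hw, h.bang mx, ae_all_iff.2 fun i : ℕ => ae_ne ((i : ℝ) / n)]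
    with x w b e i
  by_cases k : x ∈ ⋃ p ∈ Finset.univ.image I ∪ Finset.univ.image J, Ioo p.1 p.2
  · rw [indicator_of_mem k]
    simp only [mem_iUnion, Finset.mem_union, Finset.mem_image, Finset.mem_univ, true_and] at k
    obtain ⟨_, ⟨j, rfl⟩ | ⟨j, rfl⟩, k⟩ := k
    · exact (w j (hI j k)).2 (.inl k)
    · exact (w j (hJ j k)).2 (.inr k)
  · rw [indicator_of_notMem k]
    refine (b (Ioo_subset_Icc_self i)).resolve_left fun m => k ?_
    have x0 : 0 ≤ x * n := mul_nonneg i.1.le n0.le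
    have j : ⌊x * n⌋₊ < n := (Nat.floor_lt x0).2 (mul_lt_of_lt_one_left n0 i.2)
    simp only [mem_iUnion, Finset.mem_union, Finset.mem_image, Finset.mem_univ, true_and]
    rcases (w ⟨_, j⟩ ⟨((div_le_iff₀ n0).2 (Nat.floor_le x0)).lt_of_ne (e _).symm,
      (lt_div_iff₀ n0).2 (Nat.lt_floor_add_one _)⟩).1 m with q | q
    · exact ⟨_, .inl ⟨_, rfl⟩, q⟩
    · exact ⟨_, .inr ⟨_, rfl⟩, q⟩

end Dat.Ok

end Pool.Agent.MP_478eab_an.FR
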