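import Pool.Agent.MP_478eab_an.FR.AC

/-! Mass functions of measurable sets, accumulation points and patterns. -/

set_option autoImplicit false

namespace Pool.Agent.MP_478eab_an.FR

open Set MeasureTheory Filter Topology

/-- The indicator function. -/
noncomputable def ind (A : Set ℝ) : ℝ → ℝ := A.indicator fun _ => 1

/-- The mass of `A` up to `x`. -/
noncomputable def al (A : Set ℝ) (x : ℝ) : ℝ := ∫ s in (0 : ℝ)..x, ind A s

/-- `A` has mass in every left neighbourhood of `u`. -/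
def LA (A : Set ℝ) (u : ℝ) : Prop := u ∈ Ioc (0 : ℝ) 1 ∧ ∀ a ∈ Ico 0 u, al A a < al A u

variable {A B : Set ℝ} {a b u v x : ℝ} {φ φ₁ : ℝ → ℝ}

theorem ind1 (h : x ∈ A) : ind A x = 1 := indicator_of_mem h _

theorem ind0 (h : x ∉ A) : ind A x = 0 := indicator_of_notMem h _

theorem indb (A : Set ℝ) (x : ℝ) : 0 ≤ ind A x ∧ ind A x ≤ 1 := by
  by_cases h : x ∈ A <;> simp [ind, h]

theorem indm (hA : MeasurableSet A) : Measurable (ind A) := measurable_const.indicator hA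

theorem indi (hA : MeasurableSet A) (a b : ℝ) : IntervalIntegrable (ind A) volume a b :=
  bi (indm hA) (C := 1) (fun x => abs_le.2 ⟨by linarith [indb A x], (indb A x).2⟩) a b

theorem dal (hA : MeasurableSet A) : Ac (al A) (ind A) := Ac.prim (indi hA 0 1)

theorem al_mono (hA : MeasurableSet A) (ha : a ∈ Icc (0 : ℝ) 1) (hb : b ∈ Icc (0 : ℝ) 1)
    (l : a ≤ b) : al A a ≤ al A b := (dal hA).mono' ha hb l fun x _ => (indb A x).1

theorem al_lip (hA : MeasurableSet A) (ha : a ∈ Icc (0 : ℝ) 1) (hb : b ∈ Icc (0 : ℝ) 1)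
    (l : a ≤ b) : al A b - al A a ≤ b - a := by
  have := (Ac.id.sub (dal hA)).mono' ha hb l fun x _ => sub_nonneg.2 (indb A x).2
  linarith

theorem LA.mem (h : LA A u) : u ∈ Icc (0 : ℝ) 1 := Ioc_subset_Icc_self h.1

theorem ae_LA (hA : MeasurableSet A) : ∀ᵐ x, x ∈ Icc (0 : ℝ) 1 → x ∈ A → LA A x := by
  filter_upwards [(dal hA).ae, ae_oo] with x d o i hx
  refine ⟨⟨(o i).1, i.2⟩, fun a ha => not_le.1 fun n => ?_⟩
  have e : HasDerivWithinAt (al A) 0 (Icc a x) x :=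
    (hasDerivWithinAt_const x _ (al A x)).congr (fun y hy => le_antisymm
      (al_mono hA ⟨ha.1.trans hy.1, hy.2.trans i.2⟩ i hy.2) (n.trans (al_mono hA
        ⟨ha.1, ha.2.le.trans i.2⟩ ⟨ha.1.trans hy.1, hy.2.trans i.2⟩ hy.1))) rfl
  have := (uniqueDiffOn_Icc ha.2 x ⟨ha.2.le, le_rfl⟩).eq_deriv _ e (d i).hasDerivWithinAt
  rw [ind1 hx] at this
  exact zero_ne_one this

theorem near (hA : MeasurableSet A) (ha : a ∈ Icc (0 : ℝ) 1) (hb : b ∈ Icc (0 : ℝ) 1) (l : a ≤ b)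
    (h : al A a < al A b) {P : ℝ → Prop} (hP : ∀ᵐ x, x ∈ Icc (0 : ℝ) 1 → P x) :
    ∃ x ∈ Ioo a b, x ∈ A ∧ P x := by
  by_contra n
  have := (dal hA).neg.mono ha hb l (by
    filter_upwards [hP] with x p i
    rw [ind0 fun k => n ⟨x, i, k, p ⟨ha.1.trans i.1.le, i.2.le.trans hb.2⟩⟩, neg_zero])
  linarith

theorem null (hA : MeasurableSet A) (ha : a ∈ Icc (0 : ℝ) 1) (hb : b ∈ Icc (0 : ℝ) 1)
    (h : al A b ≤ al A a) : ∀ᵐ x, x ∈ Ioo a b → x ∉ A := by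
  filter_upwards [ae_LA hA] with x p i k
  have j : x ∈ Icc (0 : ℝ) 1 := ⟨ha.1.trans i.1.le, i.2.le.trans hb.2⟩
  exact (((p j k).2 a ⟨ha.1, i.1⟩).trans_le (al_mono hA j hb i.2.le)).not_ge h

theorem LA.ex (hA : MeasurableSet A) (h : LA A u) {r : ℝ} (hr : 0 < r) :
    ∃ t₀ > 0, ∀ t ∈ Icc 0 t₀, ∃ a ∈ Icc 0 u, u - a ≤ r ∧ al A u - al A a = t := by
  have m : max 0 (u - r) < u := max_lt h.1.1 (by linarith)
  refine ⟨al A u - al A (max 0 (u - r)), sub_pos.2 (h.2 _ ⟨le_max_left _ _, m⟩), fun t ht => ?_⟩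
  obtain ⟨a, ha, e⟩ := intermediate_value_Icc m.le ((dal hA).cont.mono
    (Icc_subset_Icc (le_max_left _ _) h.1.2)) (show al A u - t ∈ Icc _ _ from
      ⟨by linarith [ht.2], by linarith [ht.1]⟩)
  exact ⟨a, ⟨(le_max_left _ _).trans ha.1, ha.2⟩, by linarith [(le_max_right _ _).trans ha.1],
    by linarith⟩

theorem LA.two (hA : MeasurableSet A) (hB : MeasurableSet B) (h : LA A u) (k : LA B v) {r : ℝ}
    (hr : 0 < r) : ∃ t > 0, ∃ a ∈ Icc 0 u, ∃ b ∈ Icc 0 v, u - a ≤ r ∧ v - b ≤ r ∧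
      al A u - al A a = t ∧ al B v - al B b = t := by
  obtain ⟨s, s0, hs⟩ := h.ex hA hr
  obtain ⟨t, t0, ht⟩ := k.ex hB hr
  obtain ⟨a, ha, a1, a2⟩ := hs (min s t) ⟨(lt_min s0 t0).le, min_le_left _ _⟩
  obtain ⟨b, hb, b1, b2⟩ := ht (min s t) ⟨(lt_min s0 t0).le, min_le_right _ _⟩
  exact ⟨_, lt_min s0 t0, a, ha, b, hb, a1, b1, a2, b2⟩

theorem cut (F : ℝ → ℝ) (ha : a ∈ Icc 0 u) (hu : u ∈ Icc (0 : ℝ) 1) :
    ∫ x in (0 : ℝ)..1, F x * ind (A ∩ Ioc a u) x = ∫ x in a..u, F x * ind A x := by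
  have e : (fun x => F x * ind (A ∩ Ioc a u) x) = (Ioc a u).indicator fun x => F x * ind A x := by
    funext x
    by_cases h : x ∈ A <;> by_cases k : x ∈ Ioc a u <;> simp only [ind, indicator, mem_inter_iff,
      h, k, and_self, and_true, and_false, if_true, if_false, mul_zero]
  rw [e, intervalIntegral.integral_of_le zero_le_one, intervalIntegral.integral_of_le ha.2,
    setIntegral_indicator measurableSet_Ioc, inter_eq_right.2 (Ioc_subset_Ioc ha.1 hu.2)]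

theorem lowb (hA : MeasurableSet A) {F : ℝ → ℝ} (c : ContinuousOn F (Icc 0 1))
    (ha : a ∈ Icc (0 : ℝ) 1) (hb : b ∈ Icc (0 : ℝ) 1) (l : a ≤ b) {p : ℝ}
    (h : ∀ x ∈ Icc a b, p ≤ F x) : p * (al A b - al A a) ≤ ∫ x in a..b, F x * ind A x := by
  rw [← (dal hA).ftc ha hb, ← intervalIntegral.integral_const_mul]
  exact intervalIntegral.integral_mono_on l ((indi hA a b).const_mul p)
    ((indi hA a b).continuousOn_mul (c.mono (sub_I ha hb)))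
    fun x hx => mul_le_mul_of_nonneg_right (h x hx) (indb A x).1

/-- The cost of filling a set to the left of a zero. -/
theorem cost (hB : MeasurableSet B) (d : Ac φ φ₁) (n : ∀ᵐ x, x ∈ Icc (0 : ℝ) 1 → φ x < 0 → x ∈ B)
    (ha : a ∈ Icc (0 : ℝ) 1) (hv : v ∈ Icc (0 : ℝ) 1) (l : a ≤ v) (h0 : φ v = 0) {M : ℝ}
    (hM : ∀ x ∈ Icc a v, |φ₁ x| ≤ M) :
    -(M * (al B v - al B a) ^ 2 / 2) ≤ ∫ x in a..v, φ x * ind B x := by
  have e := (Ac.const (al B v)).sub (dal hB)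
  have p : ∀ y ∈ Icc a v, -φ y - M * (al B v - al B y) ≤ 0 := fun y hy => by
    have i : y ∈ Icc (0 : ℝ) 1 := ⟨ha.1.trans hy.1, hy.2.trans hv.2⟩
    refine (d.neg.sub (e.cmul M)).bar' i hv hy.2 (by simp [h0]) ?_
    filter_upwards [n] with x n hx q
    have j : x ∈ Icc (0 : ℝ) 1 := ⟨i.1.trans hx.1, hx.2.trans hv.2⟩
    have k := hM x ⟨hy.1.trans hx.1, hx.2⟩
    have := mul_nonneg ((abs_nonneg _).trans k) (sub_nonneg.2 (al_mono hB j hv hx.2))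
    rw [ind1 (n j (by linarith))]
    linarith [abs_le.1 k]
  have f := e.sq.cmul (M / 2)
  have := intervalIntegral.integral_mono_on l (f.int ha hv) ((indi hB a v).continuousOn_mul
    (d.cont.mono (sub_I ha hv))) fun x hx => by
      have := mul_le_mul_of_nonneg_right (p x hx) (indb B x).1
      linarith
  rw [f.ftc ha hv] at this
  linarith

theorem le_of_near (hB : MeasurableSet B) (c : ContinuousOn φ (Icc 0 1))
    (n : ∀ᵐ x, x ∈ Icc (0 : ℝ) 1 → x ∈ B → φ x ≤ 0) (hx : x ∈ Icc (0 : ℝ) 1)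
    (h : ∀ r > 0, ∃ a ∈ Icc (0 : ℝ) 1, ∃ b ∈ Icc (0 : ℝ) 1, x - r ≤ a ∧ a ≤ b ∧ b ≤ x + r ∧
      al B a < al B b) : φ x ≤ 0 := by
  by_contra k
  obtain ⟨δ, δ0, hδ⟩ := Metric.continuousWithinAt_iff.1 (c x hx) _ (not_le.1 k)
  obtain ⟨a, ha, b, hb, a1, l, b1, q⟩ := h δ δ0
  obtain ⟨y, hy, yB, p⟩ := near hB ha hb l q n
  have := abs_lt.1 (hδ ⟨ha.1.trans hy.1.le, hy.2.le.trans hb.2⟩
    (abs_lt.2 ⟨by linarith [hy.1], by linarith [hy.2]⟩))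
  linarith [p yB]

theorem LA.le (hB : MeasurableSet B) (c : ContinuousOn φ (Icc 0 1))
    (n : ∀ᵐ x, x ∈ Icc (0 : ℝ) 1 → x ∈ B → φ x ≤ 0) (h : LA B x) : φ x ≤ 0 :=
  le_of_near hB c n h.mem fun r hr =>
    have m : max 0 (x - r) < x := max_lt h.1.1 (by linarith)
    ⟨_, ⟨le_max_left _ _, m.le.trans h.1.2⟩, x, h.mem, le_max_right _ _, m.le, by linarith,
      h.2 _ ⟨le_max_left _ _, m⟩⟩

/-- The set of points with a given mass is an interval. -/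
theorem level (hB : MeasurableSet B) (hx : x ∈ Icc (0 : ℝ) 1) : ∃ p ∈ Icc 0 x, ∃ q ∈ Icc x 1,
    al B p = al B x ∧ al B q = al B x ∧ (∀ y ∈ Ico 0 p, al B y < al B x) ∧
      ∀ y ∈ Ioc q 1, al B x < al B y := by
  have cl : IsCompact (Icc (0 : ℝ) 1 ∩ al B ⁻¹' {al B x}) :=
    isCompact_Icc.of_isClosed_subset ((dal hB).cont.preimage_isClosed_of_isClosed isClosed_Icc
      isClosed_singleton) inter_subset_left
  obtain ⟨p, hp, lo⟩ := cl.exists_isLeast ⟨x, hx, rfl⟩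
  obtain ⟨q, hq, hi⟩ := cl.exists_isGreatest ⟨x, hx, rfl⟩
  have px := lo ⟨hx, rfl⟩
  have qx := hi ⟨hx, rfl⟩
  refine ⟨p, ⟨hp.1.1, px⟩, q, ⟨qx, hq.1.2⟩, hp.2, hq.2, fun y hy => ?_, fun y hy => ?_⟩
  · have i : y ∈ Icc (0 : ℝ) 1 := ⟨hy.1, hy.2.le.trans hp.1.2⟩
    exact (al_mono hB i hx (hy.2.le.trans px)).lt_of_ne fun e => hy.2.not_ge (lo ⟨i, e⟩)
  · have i : y ∈ Icc (0 : ℝ) 1 := ⟨hq.1.1.trans hy.1.le, hy.2⟩
    exact (al_mono hB hx i (qx.trans hy.1.le)).lt_of_ne fun e => hy.1.not_ge (hi ⟨i, e.symm⟩)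

/-- The pattern `B, A, B` inside `[a, b]`. -/
def Pat (A B : Set ℝ) (a b : ℝ) : Prop :=
  ∃ x₁ x₂, a ≤ x₁ ∧ x₁ ≤ x₂ ∧ x₂ ≤ b ∧ al B a < al B x₁ ∧ al A x₁ < al A x₂ ∧ al B x₂ < al B b

theorem pat (hA : MeasurableSet A) (hB : MeasurableSet B)
    (cov : ∀ᵐ x, x ∈ Icc (0 : ℝ) 1 → x ∈ A ∨ x ∈ B) (d : Ac φ φ₁) (c : ContinuousOn φ₁ (Icc 0 1))
    (pA : ∀ᵐ x, x ∈ Icc (0 : ℝ) 1 → x ∈ A → 0 ≤ φ x) (pB : ∀ᵐ x, x ∈ Icc (0 : ℝ) 1 → x ∈ B → φ x ≤ 0)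
    (ha : a ∈ Icc (0 : ℝ) 1) (hb : b ∈ Icc (0 : ℝ) 1) {γ : ℝ}
    (mv : ∀ u ∈ Icc a b, ∀ v ∈ Icc a b, v < u → LA A u → LA B v → φ u = 0 → φ v = 0 →
      0 < γ ∧ γ * (u - v) ≤ |φ₁ u| + |φ₁ v|) (h : Pat A B a b) :
    ∃ p q, a ≤ p ∧ p < q ∧ q ≤ b ∧ (∀ᵐ x, x ∈ Ioo p q → x ∈ A) ∧ φ p = 0 ∧ 0 < γ ∧
      γ * (q - p) ≤ φ₁ p - φ₁ q := by
  obtain ⟨x₁, x₂, l1, l2, l3, m1, m2, m3⟩ := h
  have i1 : x₁ ∈ Icc (0 : ℝ) 1 := ⟨ha.1.trans l1, l2.trans (l3.trans hb.2)⟩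
  have i2 : x₂ ∈ Icc (0 : ℝ) 1 := ⟨i1.1.trans l2, l3.trans hb.2⟩
  have pA' : ∀ᵐ x, x ∈ Icc (0 : ℝ) 1 → x ∈ A → -φ x ≤ 0 := by
    filter_upwards [pA] with x p i j using neg_nonpos.2 (p i j)
  by_cases k : ∃ y z, x₁ ≤ y ∧ y < z ∧ z ≤ x₂ ∧ al B z ≤ al B y
  · obtain ⟨y, z, y1, yz, z2, e⟩ := k
    have iy : y ∈ Icc (0 : ℝ) 1 := ⟨i1.1.trans y1, yz.le.trans (z2.trans i2.2)⟩
    have iz : z ∈ Icc (0 : ℝ) 1 := ⟨iy.1.trans yz.le, z2.trans i2.2⟩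
    obtain ⟨p, hp, q, hq, ep, eq, lo, hi⟩ := level hB iy
    have ip : p ∈ Icc (0 : ℝ) 1 := ⟨hp.1, hp.2.trans iy.2⟩
    have iq : q ∈ Icc (0 : ℝ) 1 := ⟨iy.1.trans hq.1, hq.2⟩
    have ap : a < p := not_le.1 fun n =>
      (m1.trans_le (al_mono hB i1 iy y1)).not_ge (ep ▸ al_mono hB ip ha n)
    have qb : q < b := not_le.1 fun n =>
      ((e.trans' le_rfl |> fun _ => al_mono hB iy i2 (yz.le.trans z2)).trans_lt m3).not_ge
        (eq ▸ al_mono hB hb iq n)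
    have pq : p < q := hp.2.trans_lt (yz.trans_le (not_lt.1 fun n => (hi z ⟨n, iz.2⟩).not_ge e))
    have iA : ∀ᵐ x, x ∈ Ioo p q → x ∈ A := by
      filter_upwards [null hB ip iq (eq.trans ep.symm).le, cov] with x n cv i
      exact (cv ⟨ip.1.trans i.1.le, i.2.le.trans iq.2⟩).resolve_right (n i)
    have st : ∀ s t, p ≤ s → s < t → t ≤ q → al A s < al A t := fun s t h1 h2 h3 => by
      have := ((dal hA).sub Ac.id).mono ⟨ip.1.trans h1, h2.le.trans (h3.trans iq.2)⟩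
        ⟨ip.1.trans (h1.trans h2.le), h3.trans iq.2⟩ h2.le (by
          filter_upwards [iA] with x n i
          rw [ind1 (n ⟨h1.trans_lt i.1, i.2.trans_le h3⟩), sub_self])
      linarith
    have nn : ∀ x ∈ Icc p q, 0 ≤ φ x := fun x hx => neg_nonpos.1 <|
      le_of_near (φ := fun x => -φ x) hA d.cont.neg pA' ⟨ip.1.trans hx.1, hx.2.trans iq.2⟩
        fun r hr => ⟨max p (x - r), ⟨ip.1.trans (le_max_left _ _), max_le ip.2
          (by linarith [hx.2, iq.2])⟩, min q (x + r), ⟨le_min iq.1 (by linarith [hx.1, ip.1]),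
          (min_le_left _ _).trans iq.2⟩, le_max_right _ _, (max_le hx.1 (by linarith)).trans
          (le_min hx.2 (by linarith)), min_le_right _ _, st _ _ (le_max_left _ _)
          (max_lt (lt_min pq (by linarith [hx.1])) (lt_min (by linarith [hx.2]) (by linarith)))
          (min_le_left _ _)⟩
    have Lp : LA B p := ⟨⟨ha.1.trans_lt ap, ip.2⟩, fun s hs => ep ▸ lo s hs⟩
    have Lq : LA A q := ⟨⟨ip.1.trans_lt pq, iq.2⟩, fun s hs =>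
      (al_mono hA ⟨hs.1, hs.2.le.trans iq.2⟩ ⟨ip.1.trans (le_max_left _ _),
        (max_lt pq hs.2).le.trans iq.2⟩ (le_max_right p s)).trans_lt
        (st _ _ (le_max_left _ _) (max_lt pq hs.2) le_rfl)⟩
    have p0 : φ p = 0 := (Lp.le hB d.cont pB).antisymm (nn p ⟨le_rfl, pq.le⟩)
    have q0 : φ q = 0 := le_antisymm (le_of_near hB d.cont pB iq fun r hr =>
      have m : q < min 1 (q + r) := lt_min (qb.trans_le hb.2) (by linarith)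
      ⟨q, iq, _, ⟨iq.1.trans m.le, min_le_left _ _⟩, by linarith, m.le, min_le_right _ _,
        eq ▸ hi _ ⟨m, min_le_left _ _⟩⟩) (nn q ⟨pq.le, le_rfl⟩)
    obtain ⟨g0, g⟩ := mv q ⟨ap.le.trans pq.le, qb.le⟩ p ⟨ap.le, pq.le.trans qb.le⟩ pq Lq Lp q0 p0
    have dp := d.derivAt c ⟨ha.1.trans_lt ap, pq.trans_le iq.2⟩
    have dq := d.derivAt c ⟨ip.1.trans_lt pq, qb.trans_le hb.2⟩
    have sp : 0 ≤ φ₁ p := ge_of_tendsto (hasDerivAt_iff_tendsto_slope_left_right.1 dp).2 (by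
      filter_upwards [Ioo_mem_nhdsGT pq] with x hx
      rw [slope_def_field, p0, sub_zero]
      exact div_nonneg (nn x (Ioo_subset_Icc_self hx)) (sub_nonneg.2 hx.1.le))
    have sq : φ₁ q ≤ 0 := le_of_tendsto (hasDerivAt_iff_tendsto_slope_left_right.1 dq).1 (by
      filter_upwards [Ioo_mem_nhdsLT pq] with x hx
      rw [slope_def_field, q0, sub_zero]
      exact div_nonpos_of_nonneg_of_nonpos (nn x (Ioo_subset_Icc_self hx)) (sub_nonpos.2 hx.2.le))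
    rw [abs_of_nonneg sp, abs_of_nonpos sq] at g
    exact ⟨p, q, ap.le, pq, qb.le, iA, p0, g0, by linarith⟩
  · exfalso
    have st : ∀ y z, x₁ ≤ y → y < z → z ≤ x₂ → al B y < al B z := fun y z h1 h2 h3 =>
      not_le.1 fun n => k ⟨y, z, h1, h2, h3, n⟩
    have LB : ∀ z ∈ Ioo x₁ x₂, LA B z := fun z hz =>
      have iz : z ∈ Ioc (0 : ℝ) 1 := ⟨i1.1.trans_lt hz.1, hz.2.le.trans i2.2⟩
      ⟨iz, fun s hs => (al_mono hB ⟨hs.1, hs.2.le.trans iz.2⟩ ⟨i1.1.trans (le_max_left _ _),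
        (max_lt hz.1 hs.2).le.trans iz.2⟩ (le_max_right x₁ s)).trans_lt
        (st _ _ (le_max_left _ _) (max_lt hz.1 hs.2) hz.2.le)⟩
    have zz : ∀ z ∈ Ioo x₁ x₂, LA A z → φ z = 0 ∧ φ₁ z = 0 := fun z hz L => by
      have e := ((LB z hz).le hB d.cont pB).antisymm
        (neg_nonpos.1 (L.le (φ := fun x => -φ x) hA d.cont.neg pA'))
      refine ⟨e, IsLocalMax.hasDerivAt_eq_zero ?_ (d.derivAt c ⟨L.1.1, hz.2.trans_le i2.2⟩)⟩
      filter_upwards [Ioo_mem_nhds hz.1 hz.2] with y hy using e ▸ (LB y hy).le hB d.cont pB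
    obtain ⟨u, hu, uA, Lu⟩ := near hA i1 i2 l2 m2 (ae_LA hA)
    obtain ⟨v, hv, vA, Lv⟩ := near hA i1 (Lu uA).mem hu.1.le ((Lu uA).2 x₁ ⟨i1.1, hu.1⟩) (ae_LA hA)
    have hv' : v ∈ Ioo x₁ x₂ := ⟨hv.1, hv.2.trans hu.2⟩
    obtain ⟨g0, g⟩ := mv u ⟨l1.trans hu.1.le, hu.2.le.trans l3⟩ v ⟨l1.trans hv.1.le,
      hv'.2.le.trans l3⟩ hv.2 (Lu uA) (LB v hv') (zz u hu (Lu uA)).1 (zz v hv' (Lv vA)).1
    rw [(zz u hu (Lu uA)).2, (zz v hv' (Lv vA)).2, abs_zero, add_zero] at g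
    exact (mul_pos g0 (sub_pos.2 hv.2)).not_ge g

/-- Without the pattern `B, A, B` the set `B` is an interval. -/
theorem win (hA : MeasurableSet A) (hB : MeasurableSet B) (ha : a ∈ Icc (0 : ℝ) 1)
    (hb : b ∈ Icc (0 : ℝ) 1) (h : ¬Pat A B a b) : ∃ p q, a ≤ p ∧ p ≤ q ∧ (a ≤ b → q ≤ b) ∧
      ∀ᵐ x, x ∈ Ioo a b → (x ∈ Ioo p q → x ∉ A) ∧ (x ∉ Ioo p q → x ∉ B) := by
  by_cases e : al B b ≤ al B a
  · refine ⟨a, a, le_rfl, le_rfl, id, ?_⟩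
    filter_upwards [null hB ha hb e] with x n i using ⟨fun k => absurd k (by simp), fun _ => n i⟩
  obtain ⟨-, -, p, hp, -, ep, -, hi⟩ := level hB ha
  obtain ⟨q, hq, -, -, eq, -, lo, -⟩ := level hB hb
  have ip : p ∈ Icc (0 : ℝ) 1 := ⟨ha.1.trans hp.1, hp.2⟩
  have iq : q ∈ Icc (0 : ℝ) 1 := ⟨hq.1, hq.2.trans hb.2⟩
  have pq : p ≤ q := not_lt.1 fun n => e (eq ▸ ep ▸ al_mono hB iq ip n.le)
  refine ⟨p, q, hp.1, pq, fun _ => hq.2, ?_⟩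
  have k : ∀ n : ℕ, ∀ᵐ x, x ∈ Ioo (p + 1 / (n + 1 : ℝ)) (q - 1 / (n + 1 : ℝ)) → x ∉ A := fun n => by
    have n0 : (0 : ℝ) < 1 / (n + 1 : ℝ) := by positivity
    by_cases l : p + 1 / (n + 1 : ℝ) ≤ q - 1 / (n + 1 : ℝ)
    · refine null hA ⟨by linarith [ip.1], by linarith [iq.2]⟩ ⟨by linarith [ip.1], by linarith [iq.2]⟩
        (not_lt.1 fun c => h ⟨_, _, by linarith [hp.1], l, by linarith [hq.2], hi _
          ⟨by linarith, by linarith [iq.2]⟩, c, lo _ ⟨by linarith [ip.1], by linarith⟩⟩)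
    · exact Eventually.of_forall fun x i => absurd (i.1.trans i.2).le l
  filter_upwards [ae_all_iff.2 k, null hB ha ip ep.le, null hB iq hb eq.ge, ae_ne p, ae_ne q]
    with x k n1 n2 e1 e2 i
  refine ⟨fun j => ?_, fun j => ?_⟩
  · obtain ⟨n, hn⟩ := exists_nat_one_div_lt (lt_min (sub_pos.2 j.1) (sub_pos.2 j.2))
    exact k n ⟨by linarith [(lt_min_iff.1 hn).1], by linarith [(lt_min_iff.1 hn).2]⟩
  · rcases lt_or_gt_of_ne e1 with l | l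
    · exact n1 ⟨i.1, l⟩
    · exact n2 ⟨(not_lt.1 fun c => j ⟨l, c⟩).lt_of_ne e2.symm, i.2⟩

end Pool.Agent.MP_478eab_an.FR
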