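import Pool.Agent.MP_478eab_an.FR.Dip
import Pool.Agent.MP_478eab_an.FR.Mass

/-! Optimality conditions obtained by moving a small mass. -/

set_option autoImplicit false

namespace Pool.Agent.MP_478eab_an.FR

open Set MeasureTheory Filter Topology

variable {A B : Set ℝ} {a b u v η : ℝ} {D : Dat}

theorem cutc (hA : MeasurableSet A) {F : ℝ → ℝ} (cF : ContinuousOn F (Icc 0 1))
    (ha : a ∈ Icc 0 u) (hu : u ∈ Icc (0 : ℝ) 1) (η c : ℝ) :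
    ∫ x in (0 : ℝ)..1, F x * (η * ind (A ∩ Ioc a u) x) =
      η * ((∫ x in a..u, (F x - c) * ind A x) + c * (al A u - al A a)) := by
  have ia : a ∈ Icc (0 : ℝ) 1 := ⟨ha.1, ha.2.trans hu.2⟩
  rw [← (dal hA).ftc ia hu, ← intervalIntegral.integral_const_mul,
    ← intervalIntegral.integral_add ((indi hA a u).continuousOn_mul
      ((cF.fun_sub continuousOn_const).mono (sub_I ia hu))) ((indi hA a u).const_mul c),
    ← intervalIntegral.integral_const_mul]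
  simp only [← mul_assoc]
  rw [cut (fun x => F x * η) ha hu]
  exact intervalIntegral.integral_congr fun x _ => by ring

theorem bump (hA : MeasurableSet A) (ha : a ∈ Icc 0 u) (hu : u ∈ Icc (0 : ℝ) 1) (η0 : 0 ≤ η) {r : ℝ}
    (hr : u - a ≤ r) : Bump η r (η * (al A u - al A a)) u fun x => η * ind (A ∩ Ioc a u) x :=
  ⟨measurable_const.mul (indm (hA.inter measurableSet_Ioc)),
    fun x => ⟨mul_nonneg η0 (indb _ x).1, mul_le_of_le_one_right η0 (indb _ x).2⟩,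
    fun x n => by
      have k : x ∈ A ∩ Ioc a u := by_contra fun k => n (by rw [ind0 k, mul_zero])
      exact abs_le.2 ⟨by linarith [k.2.1], by linarith [k.2.2, ha.2]⟩,
    by simpa using cutc hA (F := fun _ => 1) continuousOn_const ha hu η 1⟩

theorem rad {P : ℝ → Prop} (hu : u ∈ Icc (0 : ℝ) 1) (h : ∀ᶠ x in 𝓝[Icc 0 1] u, P x) :
    ∀ᶠ r in 𝓝[>] (0 : ℝ), ∀ a ∈ Icc 0 u, u - a ≤ r → ∀ x ∈ Icc a u, P x := by
  obtain ⟨ε, ε0, k⟩ := Metric.mem_nhdsWithin_iff.1 h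
  filter_upwards [Ioo_mem_nhdsGT ε0] with r hr a ha l x hx
  exact k ⟨(show |x - u| < ε from abs_lt.2 ⟨by linarith [hx.1, hr.2], by linarith [hx.2]⟩),
    ha.1.trans hx.1, hx.2.trans hu.2⟩

namespace Dat.Ok

theorem app (h : D.Ok) (mx : Cmp D.k D.m D.θ) (hA : MeasurableSet A) (hB : MeasurableSet B)
    (η0 : 0 < η) (mA : ∀ x ∈ A, η ≤ D.m x) (mB : ∀ x ∈ B, D.m x + η ≤ D.k ^ 2)
    (hu : u ∈ Icc (0 : ℝ) 1) (hv : v ∈ Icc (0 : ℝ) 1) (c : ℝ) {ζ : ℝ} (hζ : 0 < ζ) :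
    ∀ᶠ r in 𝓝[>] (0 : ℝ), ∀ t, ∀ a ∈ Icc 0 u, ∀ b ∈ Icc 0 v, u - a ≤ r → v - b ≤ r →
      al A u - al A a = t → al B v - al B b = t → (∫ x in b..v, (D.ψ x - c) * ind B x) -
        (∫ x in a..u, (D.ψ x - c) * ind A x) + η * t ^ 2 * (D.Q u v - ζ) ≤ 0 := by
  obtain ⟨r', r0, p⟩ := h.pert mx hu hv hζ
  filter_upwards [Ioc_mem_nhdsGT (lt_min r0 (div_pos r0 η0))] with r hr t a ha b hb a1 b1 ea eb
  have t1 := al_lip hA ⟨ha.1, ha.2.trans hu.2⟩ hu ha.2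
  have k := p _ _ η (η * t) (eb ▸ bump hB hb hv η0.le (b1.trans (hr.2.trans (min_le_left _ _))))
    (ea ▸ bump hA ha hu η0.le (a1.trans (hr.2.trans (min_le_left _ _))))
    ((le_div_iff₀' η0).1 (by linarith [hr.2.trans (min_le_right _ _)])) fun x => by
      have m0 := h.S.m0 x
      have m1 := h.S.m1 x
      by_cases i : x ∈ A ∩ Ioc a u <;> by_cases j : x ∈ B ∩ Ioc b v
      · rw [ind1 i, ind1 j]; constructor <;> linarith
      · rw [ind1 i, ind0 j]; constructor <;> linarith [mA x i.1]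
      · rw [ind0 i, ind1 j]; constructor <;> linarith [mB x j.1]
      · rw [ind0 i, ind0 j]; constructor <;> linarith
  rw [cutc hA h.dψ.cont ha hu η c, cutc hB h.dψ.cont hb hv η c, ea, eb] at k
  exact le_of_mul_le_mul_left (by linarith) η0

theorem bang (h : D.Ok) (mx : Cmp D.k D.m D.θ) :
    ∀ᵐ x, x ∈ Icc (0 : ℝ) 1 → D.m x = D.k ^ 2 ∨ D.m x = 0 := by
  have kp := h.S.kp
  have k : ∀ n : ℕ, ∀ᵐ x, x ∈ Ioo (0 : ℝ) 1 →
      x ∉ D.m ⁻¹' Icc (1 / (n + 1 : ℝ)) (D.k ^ 2 - 1 / (n + 1 : ℝ)) := fun n => by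
    have hA := h.S.meas (measurableSet_Icc (a := 1 / (n + 1 : ℝ)) (b := D.k ^ 2 - 1 / (n + 1 : ℝ)))
    have η0 : (0 : ℝ) < 1 / (n + 1 : ℝ) := by positivity
    refine null hA z0 z1 (not_lt.1 fun c => ?_)
    obtain ⟨v, hv, vA, Lv⟩ := near hA z0 z1 zero_le_one c (ae_LA hA)
    have m : max 0 (v - 1 / 10 ^ 4 / D.k) < v := max_lt hv.1 (sub_lt_self _ (by positivity))
    obtain ⟨u, hu, uA, Lu⟩ := near hA ⟨le_max_left _ _, m.le.trans hv.2.le⟩ (Lv vA).mem m.le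
      ((Lv vA).2 _ ⟨le_max_left _ _, m⟩) (ae_LA hA)
    have q := h.dip (Lu uA).mem (Lv vA).mem hu.2.le ((le_div_iff₀' kp).1
      (by linarith [(le_max_right _ _).trans_lt hu.1]))
    have q0 : 0 < D.Q u v / 2 := by linarith [mul_pos (h.ψpos u (Lu uA).mem) (sub_pos.2 hu.2)]
    obtain ⟨r, ⟨p1, p2⟩, r0⟩ := (((h.app mx hA hA η0 (fun x hx => hx.1)
      (fun x hx => by linarith [hx.2]) (Lu uA).mem (Lv vA).mem 0 q0).and (h.app mx hA hA η0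
      (fun x hx => hx.1) (fun x hx => by linarith [hx.2]) (Lv vA).mem (Lu uA).mem 0 q0)).and
      self_mem_nhdsWithin).exists
    obtain ⟨t, t0, a, ha, b, hb, a1, b1, ea, eb⟩ := (Lu uA).two hA hA (Lv vA) r0
    have e1 := p1 t a ha b hb a1 b1 ea eb
    have e2 := p2 t b hb a ha b1 a1 eb ea
    rw [D.Q_symm] at e2
    linarith [mul_pos (mul_pos η0 (pow_pos t0 2)) q0]
  filter_upwards [ae_all_iff.2 k, ae_oo] with x k o i
  by_contra n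
  rw [not_or] at n
  obtain ⟨j, hj⟩ := exists_nat_one_div_lt (lt_min ((h.S.m0 x).lt_of_ne (Ne.symm n.2))
    (sub_pos.2 ((h.S.m1 x).lt_of_ne n.1)))
  exact k j (o i) ⟨(lt_min_iff.1 hj).1.le, by linarith [(lt_min_iff.1 hj).2]⟩

theorem first (h : D.Ok) (mx : Cmp D.k D.m D.θ) (hA : MeasurableSet A) (hB : MeasurableSet B)
    (η0 : 0 < η) (mA : ∀ x ∈ A, η ≤ D.m x) (mB : ∀ x ∈ B, D.m x + η ≤ D.k ^ 2)
    (Lu : LA A u) (Lv : LA B v) : D.ψ v ≤ D.ψ u := by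
  by_contra n
  obtain ⟨δ, δ0, e⟩ : ∃ δ > 0, D.ψ v = D.ψ u + 4 * δ :=
    ⟨(D.ψ v - D.ψ u) / 4, by linarith [not_le.1 n], by ring⟩
  have N : 0 < η * (|D.Q u v| + 1) := by positivity
  obtain ⟨r, ⟨⟨p, p1⟩, p2⟩, r0⟩ := ((((h.app mx hA hB η0 mA mB Lu.mem Lv.mem (D.ψ u + 2 * δ)
    one_pos).and (rad Lu.mem ((h.dψ.cont u Lu.mem).eventually (gt_mem_nhds (lt_add_of_pos_right _
    δ0))))).and (rad Lv.mem ((h.dψ.cont v Lv.mem).eventually (lt_mem_nhds (sub_lt_self _ δ0))))).and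
    (Ioc_mem_nhdsGT (div_pos δ0 N))).exists
  obtain ⟨t, t0, a, ha, b, hb, a1, b1, ea, eb⟩ := Lu.two hA hB Lv r0.1
  have ia : a ∈ Icc (0 : ℝ) 1 := ⟨ha.1, ha.2.trans Lu.mem.2⟩
  have c := h.dψ.cont.fun_sub (continuousOn_const (c := D.ψ u + 2 * δ))
  have k := p t a ha b hb a1 b1 ea eb
  have k1 := lowb hA c.fun_neg ia Lu.mem ha.2 (p := δ) fun x hx => by linarith [p1 a ha a1 x hx]
  have k2 := lowb hB c ⟨hb.1, hb.2.trans Lv.mem.2⟩ Lv.mem hb.2 (p := δ)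
    fun x hx => by linarith [p2 b hb b1 x hx]
  simp only [neg_mul, intervalIntegral.integral_neg] at k1
  have k3 := mul_le_mul_of_nonneg_right ((le_div_iff₀ N).1
    ((ea ▸ (al_lip hA ia Lu.mem ha.2).trans a1).trans r0.2)) t0.le
  have k4 := mul_le_mul_of_nonneg_left (neg_abs_le (D.Q u v)) (mul_pos η0 (pow_pos t0 2)).le
  rw [ea] at k1
  rw [eb] at k2
  linarith [mul_pos δ0 t0]

theorem move (h : D.Ok) (mx : Cmp D.k D.m D.θ) (hA : MeasurableSet A) (hB : MeasurableSet B)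
    (η0 : 0 < η) (mA : ∀ x ∈ A, η ≤ D.m x) (mB : ∀ x ∈ B, D.m x + η ≤ D.k ^ 2) {c : ℝ}
    (nA : ∀ᵐ x, x ∈ Icc (0 : ℝ) 1 → -(D.ψ x - c) < 0 → x ∈ A)
    (nB : ∀ᵐ x, x ∈ Icc (0 : ℝ) 1 → D.ψ x - c < 0 → x ∈ B)
    (Lu : LA A u) (Lv : LA B v) (u0 : D.ψ u - c = 0) (v0 : D.ψ v - c = 0) :
    2 * η * D.Q u v ≤ |(2 * D.σ u + D.ρ u) * D.ψ u| + |(2 * D.σ v + D.ρ v) * D.ψ v| := by
  refine le_of_forall_pos_le_add fun ε ε0 => ?_
  obtain ⟨ζ, ζ0, rfl⟩ : ∃ ζ > 0, ε = (2 * η + 2) * ζ :=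
    ⟨ε / (2 * η + 2), by positivity, by field_simp⟩
  have cc := h.dφ.cont.abs
  obtain ⟨r, ⟨⟨p, p1⟩, p2⟩, r0⟩ := ((((h.app mx hA hB η0 mA mB Lu.mem Lv.mem c ζ0).and
    (rad Lu.mem ((cc u Lu.mem).eventually (gt_mem_nhds (lt_add_of_pos_right _ ζ0))))).and
    (rad Lv.mem ((cc v Lv.mem).eventually (gt_mem_nhds (lt_add_of_pos_right _ ζ0))))).and
    self_mem_nhdsWithin).exists
  obtain ⟨t, t0, a, ha, b, hb, a1, b1, ea, eb⟩ := Lu.two hA hB Lv r0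
  have d := (h.dψ.sub (Ac.const c)).congr (g₁ := fun x => (2 * D.σ x + D.ρ x) * D.ψ x)
    fun _ _ => sub_zero _
  have k := p t a ha b hb a1 b1 ea eb
  have k1 := cost hA d.neg nA ⟨ha.1, ha.2.trans Lu.mem.2⟩ Lu.mem ha.2 (by rw [u0, neg_zero])
    fun x hx => (abs_neg _).trans_le (p1 a ha a1 x hx).le
  have k2 := cost hB d nB ⟨hb.1, hb.2.trans Lv.mem.2⟩ Lv.mem hb.2 v0
    fun x hx => (p2 b hb b1 x hx).le
  simp only [neg_mul, intervalIntegral.integral_neg] at k1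
  rw [ea] at k1
  rw [eb] at k2
  exact le_of_mul_le_mul_left (by linarith) (pow_pos t0 2)

end Dat.Ok

end Pool.Agent.MP_478eab_an.FR
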