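import Pool.Agent.MP_478eab_an.FR.Grn

/-! The perturbed solution and the exact expansion of the total population. -/

set_option autoImplicit false

namespace Pool.Agent.MP_478eab_an.FR

open Set MeasureTheory Filter Topology

/-- Maximality among measurable competitors. -/
def Cmp (k : ℝ) (m θ : ℝ → ℝ) : Prop :=
  ∀ m' θ' τ', Raw k m' θ' τ' → ∫ x in (0 : ℝ)..1, m' x = ∫ x in (0 : ℝ)..1, m x →
    ∫ x in (0 : ℝ)..1, θ' x ≤ ∫ x in (0 : ℝ)..1, θ x

namespace Dat.Ok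

variable {D : Dat}

theorem Gle (h : D.Ok) : ∃ Γ > 0, ∀ (f g e : ℝ → ℝ) (a b : ℝ), IntervalIntegrable f volume 0 1 →
    IntervalIntegrable g volume 0 1 → IntervalIntegrable e volume 0 1 →
    (∀ x ∈ Icc (0 : ℝ) 1, |f x - g x| ≤ a * |e x| + b) → ∀ z ∈ Icc (0 : ℝ) 1,
    |D.G f z - D.G g z| ≤ Γ * (a * (∫ x in (0 : ℝ)..1, |e x|) + b) := by
  obtain ⟨C, hC⟩ := (isCompact_Icc.prod isCompact_Icc).exists_bound_of_continuousOn h.cK
  refine ⟨|C| + 1, by positivity, fun f g e a b hf hg he p z hz => ?_⟩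
  have c := uI ▸ h.cK₁ hz
  have i := (he.abs.const_mul a).add (intervalIntegrable_const (c := b))
  rw [h.G_eq hf hz, h.G_eq hg hz, ← intervalIntegral.integral_sub (hf.continuousOn_mul c)
    (hg.continuousOn_mul c)]
  refine (intervalIntegral.abs_integral_le_integral_abs zero_le_one).trans
    ((intervalIntegral.integral_mono_on zero_le_one ((hf.continuousOn_mul c).sub
      (hg.continuousOn_mul c)).abs (i.const_mul (|C| + 1)) fun x hx => ?_).trans_eq ?_)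
  · rw [← mul_sub, abs_mul]
    exact mul_le_mul ((hC (z, x) ⟨hz, hx⟩).trans (by linarith [le_abs_self C])) (p x hx)
      (abs_nonneg _) (by positivity)
  · rw [intervalIntegral.integral_const_mul, intervalIntegral.integral_add (he.abs.const_mul a)
      intervalIntegrable_const, intervalIntegral.integral_const_mul]
    simp

theorem fix (h : D.Ok) : ∃ C > 0, ∃ τ₀ > 0, ∀ (e : ℝ → ℝ) (τ : ℝ), IntervalIntegrable e volume 0 1 →
    ∫ x in (0 : ℝ)..1, |e x| ≤ τ → τ ≤ τ₀ → ∃ w w' : ℝ → ℝ, Ac w w' ∧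
      Ac (fun x => D.θ x ^ 2 * w' x)
        (fun x => D.θ x ^ 3 * (w x * (1 + w x)) - D.θ x ^ 2 * (1 + w x) * e x) ∧
      w' 0 = 0 ∧ w' 1 = 0 ∧ ∀ x ∈ Icc (0 : ℝ) 1, |w x| ≤ 1 / 2 ∧
        |w x - D.G (fun y => D.θ y ^ 2 * e y) x| ≤ C * τ ^ 2 := by
  obtain ⟨Γ, Γ0, hΓ⟩ := h.Gle
  have kp := h.S.kp
  set A := Γ * (D.k ^ 2) ^ 2 with hA
  set B := Γ * (D.k ^ 2) ^ 3 with hB
  have A0 : 0 < A := by positivity
  have B0 : 0 < B := by positivity
  refine ⟨4 * A ^ 2 + 16 * A ^ 2 * B, by positivity, 1 / (32 * (A + 1) * (B + 1)), by positivity,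
    fun e τ he hτ τ1 => ?_⟩
  have n0 : 0 ≤ ∫ x in (0 : ℝ)..1, |e x| :=
    intervalIntegral.integral_nonneg zero_le_one fun _ _ => abs_nonneg _
  have τ0 := n0.trans hτ
  rw [le_div_iff₀ (by positivity)] at τ1
  have AB := mul_nonneg (mul_pos A0 B0).le τ0
  have Aτ := mul_nonneg A0.le τ0
  have Bτ := mul_nonneg B0.le τ0
  set r := 4 * (A * τ) with hr
  have r1 : r ≤ 1 / 8 := by linarith
  have r2 : B * r ≤ 1 / 8 := by rw [hr]; linarith
  have r0 : 0 ≤ r := by linarith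
  let c : C(Icc (0 : ℝ) 1, ℝ) → ℝ → ℝ := fun w x => max (-r) (min (IccExtend zero_le_one w x) r)
  have cc : ∀ w, Continuous (c w) := fun w =>
    continuous_const.max (w.continuous.Icc_extend'.min continuous_const)
  have cb : ∀ w x, |c w x| ≤ r := fun w x =>
    abs_le.2 ⟨le_max_left _ _, max_le (by linarith) (min_le_right _ _)⟩
  have cl : ∀ w w' x, |c w x - c w' x| ≤ dist w w' := fun w w' x =>
    (abs_max_sub_max_le_max _ _ _ _).trans (max_le (by simp) ((abs_min_sub_min_le_max _ _ _ _).trans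
      (max_le (ContinuousMap.dist_apply_le_dist (f := w) (g := w') _) (by simp))))
  let s : C(Icc (0 : ℝ) 1, ℝ) → ℝ → ℝ := fun w x =>
    D.θ x ^ 2 * (1 + c w x) * e x - D.θ x ^ 3 * c w x ^ 2
  have tc := h.S.d1.cont
  have si : ∀ w, IntervalIntegrable (s w) volume 0 1 := fun w =>
    (he.continuousOn_mul (uI ▸ (tc.pow 2).mul (continuous_const.add (cc w)).continuousOn)).sub
      (ci ((tc.pow 3).mul ((cc w).pow 2).continuousOn) z0 z1)
  have key : ∀ (x a b p q : ℝ), x ∈ Icc (0 : ℝ) 1 → |a| ≤ p → |b| ≤ q →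
      |D.θ x ^ 2 * a * e x - D.θ x ^ 3 * b| ≤ (D.k ^ 2) ^ 2 * p * |e x| + (D.k ^ 2) ^ 3 * q :=
    fun x a b p q hx ha hb => by
      have := (h.S.pos x hx).le
      have := h.S.le x hx
      have := (abs_nonneg _).trans ha
      refine (abs_sub _ _).trans ?_
      rw [abs_mul, abs_mul, abs_mul, abs_pow, abs_pow, abs_of_nonneg ‹0 ≤ D.θ x›]
      gcongr
  have fin : ∀ p q, 0 ≤ p → Γ * ((D.k ^ 2) ^ 2 * p * (∫ x in (0 : ℝ)..1, |e x|) + (D.k ^ 2) ^ 3 * q) ≤
      A * τ * p + B * q := fun p q hp => by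
    have := mul_le_mul_of_nonneg_left hτ (mul_nonneg A0.le hp)
    rw [hA] at this
    rw [hA, hB]
    linarith
  let T : C(Icc (0 : ℝ) 1, ℝ) → C(Icc (0 : ℝ) 1, ℝ) := fun w =>
    ⟨fun z => D.G (s w) z, (h.dG (si w)).cont.domRestrict⟩
  have hT : ContractingWith (1 / 2) T := by
    refine ⟨by norm_num, LipschitzWith.of_dist_le_mul fun w w' => (ContinuousMap.dist_le
      (by positivity)).2 fun z => ?_⟩
    refine ((hΓ _ _ e _ _ (si w) (si w') he (fun x hx => ?_) z z.2).trans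
      (fin (dist w w') (2 * r * dist w w') dist_nonneg)).trans ?_
    · refine (le_of_eq (congrArg _ ?_)).trans (key x (c w x - c w' x)
        ((c w x + c w' x) * (c w x - c w' x)) _ _ hx (cl w w' x) ?_)
      · simp only [s]
        ring
      · rw [abs_mul]
        exact mul_le_mul ((abs_add_le _ _).trans (by linarith [cb w x, cb w' x])) (cl w w' x)
          (abs_nonneg _) (by linarith)
    · have := mul_le_mul_of_nonneg_right (show A * τ + 2 * (B * r) ≤ 1 / 2 by linarith)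
        (dist_nonneg (x := w) (y := w'))
      push_cast
      linarith
  have fp := hT.fixedPoint_isFixedPt
  set w := hT.fixedPoint T
  have c2 : ∀ x, |c w x ^ 2| ≤ r ^ 2 := fun x => by
    rw [abs_pow]
    exact pow_le_pow_left₀ (abs_nonneg _) (cb w x) 2
  have n1 : ∀ x ∈ Icc (0 : ℝ) 1, |D.G (s w) x| ≤ r := fun z hz => by
    have k := (hΓ _ (fun _ => 0) e _ _ (si w) intervalIntegrable_const he (fun x hx => by
      rw [sub_zero]
      exact key x _ _ (1 + r) _ hx ((abs_add_le _ _).trans (by linarith [cb w x, abs_one (α := ℝ)]))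
        (c2 x)) z hz).trans (fin _ _ (by linarith))
    have e0 : D.G (fun _ => 0) z = 0 := by simp [G]
    have := mul_le_mul_of_nonneg_left r1 Aτ
    have := mul_le_mul_of_nonneg_left r2 r0
    rw [e0, sub_zero] at k
    linarith
  have e1 : ∀ x ∈ Icc (0 : ℝ) 1, c w x = D.G (s w) x := fun x hx => by
    have : IccExtend zero_le_one w x = D.G (s w) x := by
      rw [IccExtend_of_mem _ _ hx]
      exact (congrArg (· ⟨x, hx⟩) fp.eq).symm
    simp only [c, this]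
    rw [min_eq_left (abs_le.1 (n1 x hx)).2, max_eq_right (abs_le.1 (n1 x hx)).1]
  refine ⟨D.G (s w), D.J (s w), h.dG (si w), (h.dJ (si w)).congr fun x hx => ?_, h.J0, h.J1,
    fun z hz => ⟨(n1 z hz).trans (by linarith), ?_⟩⟩
  · rw [← e1 x hx]
    simp only [s]
    ring
  · refine ((hΓ _ _ e _ _ (si w) (he.continuousOn_mul (uI ▸ tc.pow 2)) he (fun x hx => ?_)
      z hz).trans (fin r (r ^ 2) r0)).trans_eq (by rw [hr]; ring)
    refine (le_of_eq (congrArg _ ?_)).trans (key x (c w x) (c w x ^ 2) _ _ hx (cb w x) (c2 x))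
    simp only [s]
    ring

theorem expand (h : D.Ok) (mx : Cmp D.k D.m D.θ) {e w w' : ℝ → ℝ} (me : Measurable e)
    (ad : ∀ x, 0 ≤ D.m x + e x ∧ D.m x + e x ≤ D.k ^ 2) (e0 : ∫ x in (0 : ℝ)..1, e x = 0)
    (he : IntervalIntegrable e volume 0 1) (a : Ac w w') (b : Ac (fun x => D.θ x ^ 2 * w' x)
      fun x => D.θ x ^ 3 * (w x * (1 + w x)) - D.θ x ^ 2 * (1 + w x) * e x) (w0 : w' 0 = 0)
    (w1 : w' 1 = 0) (s : ∀ x ∈ Icc (0 : ℝ) 1, |w x| ≤ 1 / 2) :
    (∫ x in (0 : ℝ)..1, D.ψ x * e x) + (∫ x in (0 : ℝ)..1, D.ψ x * w x * e x) ≤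
      ∫ x in (0 : ℝ)..1, D.ψ x * D.θ x * w x ^ 2 := by
  have d := h.S.d1.mul ((Ac.const 1).add a)
  have R : Raw D.k (fun x => D.m x + e x) (fun x => D.θ x * (1 + w x))
      fun x => D.σ x * (D.θ x * (1 + w x)) + D.θ x ^ 2 * w' x * (D.θ x)⁻¹ :=
    ⟨h.S.kp, h.S.meas.add me, fun x => (ad x).1, fun x => (ad x).2, fun x hx =>
      mul_pos (h.S.pos x (Ioo_subset_Icc_self hx))
        (by linarith [abs_le.1 (s x (Ioo_subset_Icc_self hx))]),
      d.congr fun x hx => by have := (h.S.pos x hx).ne'; field_simp; ring,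
      ((h.S.d2.mul d).add (b.mul (h.S.d1.inv h.S.pos))).congr fun x hx => by
        have := (h.S.pos x hx).ne'; field_simp; ring,
      by simp [h.S.l, w0], by simp [h.S.r, w1]⟩
  have mi := bi h.S.meas (fun x => abs_le.2 ⟨by linarith [h.S.m0 x, sq_nonneg D.k], h.S.m1 x⟩) 0 1
  have k := mx _ _ _ R (by rw [intervalIntegral.integral_add mi he, e0, add_zero])
  have i1 := he.continuousOn_mul (uI ▸ h.dψ.cont)
  have i2 := he.continuousOn_mul (uI ▸ h.dψ.cont.fun_mul a.cont)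
  have i3 := ci ((h.dψ.cont.fun_mul h.S.d1.cont).fun_mul (a.cont.fun_pow 2)) z0 z1
  have i4 := (ci d.cont z0 z1).sub h.iθ
  have E := (((b.mul h.dq).sub (h.dΦ.mul a)).congr (g₁ := fun x =>
    D.ψ x * D.θ x * w x ^ 2 - (D.ψ x * e x + D.ψ x * w x * e x) + (D.θ x * (1 + w x) - D.θ x))
      fun _ _ => by unfold ψ; ring).ftc z0 z1
  rw [intervalIntegral.integral_add (i3.sub (i1.add i2)) i4, intervalIntegral.integral_sub i3
    (i1.add i2), intervalIntegral.integral_add i1 i2,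
    intervalIntegral.integral_sub (ci d.cont z0 z1) h.iθ] at E
  simp only [w0, w1, h.ρ0, h.ρ1, mul_zero, zero_mul, sub_self] at E
  linarith

end Dat.Ok

theorem conc {F e : ℝ → ℝ} {a t ζ : ℝ} (c : ContinuousOn F (Icc 0 1))
    (he : IntervalIntegrable e volume 0 1) (e0 : ∀ x, 0 ≤ e x) (et : ∫ x in (0 : ℝ)..1, e x = t)
    (p : ∀ x ∈ Icc (0 : ℝ) 1, e x ≠ 0 → |F x - a| ≤ ζ) :
    |(∫ x in (0 : ℝ)..1, F x * e x) - a * t| ≤ ζ * t := by
  have i := he.continuousOn_mul (uI ▸ c)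
  rw [← et, ← intervalIntegral.integral_const_mul, ← intervalIntegral.integral_const_mul,
    ← intervalIntegral.integral_sub i (he.const_mul a)]
  refine (intervalIntegral.abs_integral_le_integral_abs zero_le_one).trans
    (intervalIntegral.integral_mono_on zero_le_one (i.sub (he.const_mul a)).abs (he.const_mul ζ)
      fun x hx => ?_)
  by_cases n : e x = 0
  · simp [n]
  · rw [← sub_mul, abs_mul, abs_of_nonneg (e0 x)]
    exact mul_le_mul_of_nonneg_right (p x hx n) (e0 x)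

/-- The response to a dipole. -/
noncomputable def Dat.w₀ (D : Dat) (u v z : ℝ) : ℝ := D.Kr z v * D.θ v ^ 2 - D.Kr z u * D.θ u ^ 2

/-- The second variation along a dipole. -/
noncomputable def Dat.Q (D : Dat) (u v : ℝ) : ℝ :=
  D.ψ v * D.w₀ u v v - D.ψ u * D.w₀ u v u - ∫ x in (0 : ℝ)..1, D.ψ x * D.θ x * D.w₀ u v x ^ 2

/-- A small mass near a point. -/
structure Bump (M r t v : ℝ) (e : ℝ → ℝ) : Prop where
  meas : Measurable e
  bd : ∀ x, 0 ≤ e x ∧ e x ≤ M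
  sup : ∀ x, e x ≠ 0 → |x - v| ≤ r
  int : ∫ x in (0 : ℝ)..1, e x = t

theorem Bump.ii {M r t v : ℝ} {e : ℝ → ℝ} (b : Bump M r t v e) : IntervalIntegrable e volume 0 1 :=
  bi b.meas (fun x => abs_le.2 ⟨by linarith [b.bd x], (b.bd x).2⟩) 0 1

theorem Dat.Ok.cw {D : Dat} (h : D.Ok) {u v : ℝ} (hu : u ∈ Icc (0 : ℝ) 1) (hv : v ∈ Icc (0 : ℝ) 1) :
    ContinuousOn (D.w₀ u v) (Icc 0 1) :=
  ((h.cK₂ hv).mul continuousOn_const).sub ((h.cK₂ hu).mul continuousOn_const)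

theorem Dat.Ok.pert {D : Dat} (h : D.Ok) (mx : Cmp D.k D.m D.θ) {u v ζ : ℝ} (hu : u ∈ Icc (0 : ℝ) 1)
    (hv : v ∈ Icc (0 : ℝ) 1) (hζ : 0 < ζ) : ∃ r > 0, ∀ (e₁ e₂ : ℝ → ℝ) (M t : ℝ), Bump M r t v e₁ →
      Bump M r t u e₂ → t ≤ r →
      (∀ x, 0 ≤ D.m x + (e₁ x - e₂ x) ∧ D.m x + (e₁ x - e₂ x) ≤ D.k ^ 2) →
      (∫ x in (0 : ℝ)..1, D.ψ x * e₁ x) - (∫ x in (0 : ℝ)..1, D.ψ x * e₂ x) +
        t ^ 2 * (D.Q u v - ζ) ≤ 0 := by
  obtain ⟨C, C0, τ₀, τ0, hf⟩ := h.fix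
  have cw := h.cw hu hv
  have tc := h.S.d1.cont
  obtain ⟨P, hP⟩ := isCompact_Icc.exists_bound_of_continuousOn h.dψ.cont
  obtain ⟨N, hN⟩ := isCompact_Icc.exists_bound_of_continuousOn cw
  have P0 : 0 ≤ P := (norm_nonneg _).trans (hP 0 z0)
  have N0 : 0 ≤ N := (norm_nonneg _).trans (hN 0 z0)
  obtain ⟨η, η0, η1, η2⟩ : ∃ η : ℝ, 0 < η ∧ η ≤ 1 ∧
      η * (6 * P + 2 + 3 * P * D.k ^ 2 * (2 * N + 3)) ≤ ζ :=
    ⟨min 1 (ζ / (6 * P + 2 + 3 * P * D.k ^ 2 * (2 * N + 3))), by positivity, min_le_left _ _,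
      (le_div_iff₀ (by positivity)).1 (min_le_right _ _)⟩
  obtain ⟨δ₁, δ1, k1⟩ := Metric.uniformContinuousOn_iff_le.1
    ((isCompact_Icc.prod isCompact_Icc).uniformContinuousOn_of_continuous (h.cK.mul
      ((tc.pow 2).comp continuous_snd.continuousOn fun _ hp => hp.2))) η η0
  obtain ⟨δ₂, δ2, k2⟩ := Metric.uniformContinuousOn_iff_le.1
    (isCompact_Icc.uniformContinuousOn_of_continuous (h.dψ.cont.mul cw)) η η0
  obtain ⟨r, r0, r1, r2, r3, r4⟩ : ∃ r > 0, r ≤ δ₁ ∧ r ≤ δ₂ ∧ r ≤ τ₀ / 2 ∧ r ≤ η / (4 * C) :=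
    ⟨min (min δ₁ δ₂) (min (τ₀ / 2) (η / (4 * C))), by positivity, by simp, by simp, by simp, by simp⟩
  refine ⟨r, r0, fun e₁ e₂ M t b₁ b₂ ht ad => ?_⟩
  have t0 : 0 ≤ t := b₁.int ▸ intervalIntegral.integral_nonneg zero_le_one fun x _ => (b₁.bd x).1
  have i := b₁.ii.sub b₂.ii
  obtain ⟨w, w', a, b, w0, w1, s⟩ := hf _ (2 * t) i (by
    refine (intervalIntegral.integral_mono_on zero_le_one i.abs (b₁.ii.add b₂.ii) fun x _ =>
      abs_le.2 ⟨by linarith [b₁.bd x, b₂.bd x], by linarith [b₁.bd x, b₂.bd x]⟩).trans_eq ?_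
    rw [intervalIntegral.integral_add b₁.ii b₂.ii, b₁.int, b₂.int, two_mul]) (by linarith)
  have E := h.expand mx (e := fun x => e₁ x - e₂ x) (b₁.meas.sub b₂.meas) ad (by
    rw [intervalIntegral.integral_sub b₁.ii b₂.ii, b₁.int, b₂.int, sub_self]) i a b w0 w1
    fun x hx => (s x hx).1
  have sp : ∀ F : ℝ → ℝ, ContinuousOn F (Icc 0 1) → ∫ x in (0 : ℝ)..1, F x * (e₁ x - e₂ x) =
      (∫ x in (0 : ℝ)..1, F x * e₁ x) - ∫ x in (0 : ℝ)..1, F x * e₂ x := fun F c => by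
    simp only [mul_sub]
    exact intervalIntegral.integral_sub (b₁.ii.continuousOn_mul (uI ▸ c))
      (b₂.ii.continuousOn_mul (uI ▸ c))
  have cl : ∀ z ∈ Icc (0 : ℝ) 1, |w z - t * D.w₀ u v z| ≤ 3 * η * t := fun z hz => by
    have c := (h.cK₁ hz).fun_mul (tc.fun_pow 2)
    have q : ∀ {p e}, p ∈ Icc (0 : ℝ) 1 → Bump M r t p e → |(∫ x in (0 : ℝ)..1,
        D.Kr z x * D.θ x ^ 2 * e x) - D.Kr z p * D.θ p ^ 2 * t| ≤ η * t := fun {p e} hp b =>
      conc c b.ii (fun x => (b.bd x).1) b.int fun x hx n => k1 (z, x) ⟨hz, hx⟩ (z, p) ⟨hz, hp⟩ (by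
        rw [Prod.dist_eq, dist_self, max_eq_right dist_nonneg]
        exact (b.sup x n).trans r1)
    have q1 := abs_le.1 (q hv b₁)
    have q2 := abs_le.1 (q hu b₂)
    have q3 := abs_le.1 (s z hz).2
    have q4 := mul_le_mul_of_nonneg_right ((le_div_iff₀ (by positivity)).1 (ht.trans r4)) t0
    rw [h.G_eq (i.continuousOn_mul (uI ▸ tc.fun_pow 2)) hz] at q3
    simp only [← mul_assoc] at q3
    rw [sp _ c] at q3
    rw [abs_le, Dat.w₀]
    constructor <;> linarith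
  have q : ∀ {p e}, p ∈ Icc (0 : ℝ) 1 → Bump M r t p e → |(∫ x in (0 : ℝ)..1, D.ψ x * w x * e x) -
      t * (D.ψ p * D.w₀ u v p) * t| ≤ (P * (3 * η * t) + t * η) * t := fun {p e} hp b =>
    conc (h.dψ.cont.fun_mul a.cont) b.ii (fun x => (b.bd x).1) b.int fun x hx n => by
      have k := k2 x hx p hp ((b.sup x n).trans r2)
      rw [show D.ψ x * w x - t * (D.ψ p * D.w₀ u v p) = D.ψ x * (w x - t * D.w₀ u v x) +
        t * (D.ψ x * D.w₀ u v x - D.ψ p * D.w₀ u v p) by ring]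
      refine (abs_add_le _ _).trans ?_
      rw [abs_mul, abs_mul t, abs_of_nonneg t0]
      exact add_le_add (mul_le_mul (hP x hx) (cl x hx) (abs_nonneg _) P0)
        (mul_le_mul_of_nonneg_left k t0)
  have q1 := abs_le.1 (q hv b₁)
  have q2 := abs_le.1 (q hu b₂)
  have j := ci ((h.dψ.cont.fun_mul tc).fun_mul (cw.fun_pow 2)) z0 z1
  have q3 := intervalIntegral.integral_mono_on zero_le_one
    (ci ((h.dψ.cont.fun_mul tc).fun_mul (a.cont.fun_pow 2)) z0 z1) ((j.const_mul (t ^ 2)).add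
      (intervalIntegrable_const (c := P * D.k ^ 2 * (3 * η * t * ((2 * N + 3) * t))))) fun x hx => by
    have k : w x ^ 2 - (t * D.w₀ u v x) ^ 2 ≤ 3 * η * t * ((2 * N + 3) * t) := by
      rw [sq_sub_sq, mul_comm]
      refine (le_abs_self _).trans ((abs_mul _ _).trans_le (mul_le_mul (cl x hx) ?_ (abs_nonneg _)
        (by positivity)))
      have n1 := abs_le.1 (cl x hx)
      have n2 := abs_le.1 (hN x hx)
      have := mul_le_mul_of_nonneg_left n2.1 t0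
      have := mul_le_mul_of_nonneg_left n2.2 t0
      have := mul_le_mul_of_nonneg_right η1 t0
      rw [abs_le]
      constructor <;> linarith
    have k1 := mul_le_mul_of_nonneg_left k (mul_pos (h.ψpos x hx) (h.S.pos x hx)).le
    have k2 := mul_le_mul_of_nonneg_right (mul_le_mul ((le_abs_self _).trans (hP x hx))
      (h.S.le x hx) (h.S.pos x hx).le P0) (show 0 ≤ 3 * η * t * ((2 * N + 3) * t) by positivity)
    linarith
  rw [intervalIntegral.integral_add (j.const_mul _) intervalIntegrable_const,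
    intervalIntegral.integral_const_mul, intervalIntegral.integral_const, sub_zero, one_smul] at q3
  rw [sp _ h.dψ.cont, sp _ (h.dψ.cont.fun_mul a.cont)] at E
  have := mul_le_mul_of_nonneg_left η2 (sq_nonneg t)
  rw [Dat.Q]
  linarith

end Pool.Agent.MP_478eab_an.FR
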