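import Pool.Agent.MP_478eab_an.FR.AC

/-! A priori bounds for the logistic equation (diffusivity one) and the Riccati solutions. -/

set_option autoImplicit false

namespace Pool.Agent.MP_478eab_an.FR

open Set MeasureTheory Filter Topology

/-- A solution with its derivative. -/
structure Raw (k : ℝ) (m θ τ : ℝ → ℝ) : Prop where
  kp : 0 < k
  meas : Measurable m
  m0 : ∀ x, 0 ≤ m x
  m1 : ∀ x, m x ≤ k ^ 2
  pos : ∀ x ∈ Ioo (0 : ℝ) 1, 0 < θ x
  d1 : Ac θ τ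
  d2 : Ac τ fun x => θ x * (θ x - m x)
  l : τ 0 = 0
  r : τ 1 = 0

/-- A solution with its logarithmic derivative. -/
structure Sol (k : ℝ) (m θ σ : ℝ → ℝ) : Prop where
  kp : 0 < k
  meas : Measurable m
  m0 : ∀ x, 0 ≤ m x
  m1 : ∀ x, m x ≤ k ^ 2
  pos : ∀ x ∈ Icc (0 : ℝ) 1, 0 < θ x
  le : ∀ x ∈ Icc (0 : ℝ) 1, θ x ≤ k ^ 2
  d1 : Ac θ fun x => σ x * θ x
  d2 : Ac σ fun x => θ x - m x - σ x ^ 2
  l : σ 0 = 0
  r : σ 1 = 0
  en : ∀ x ∈ Icc (0 : ℝ) 1, 3 * σ x ^ 2 ≤ 2 * θ x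

variable {k : ℝ} {m θ τ σ : ℝ → ℝ}

namespace Raw

theorem refl (h : Raw k m θ τ) :
    Raw k (fun x => m (1 - x)) (fun x => θ (1 - x)) fun x => -τ (1 - x) :=
  ⟨h.kp, h.meas.comp (measurable_const.sub measurable_id), fun _ => h.m0 _, fun _ => h.m1 _,
    fun x hx => h.pos _ ⟨by linarith [hx.2], by linarith [hx.1]⟩, h.d1.refl,
    h.d2.refl.neg.congr fun _ _ => neg_neg _, by simp [h.r], by simp [h.l]⟩

theorem nn (h : Raw k m θ τ) : ∀ x ∈ Icc (0 : ℝ) 1, 0 ≤ θ x := by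
  have e := closure_Ioo (zero_ne_one (α := ℝ))
  intro x hx
  exact le_on_closure (f := fun _ => 0) (fun y hy => (h.pos y hy).le) continuousOn_const
    (e ▸ h.d1.cont) (e ▸ hx)

theorem enL (h : Raw k m θ τ) {x : ℝ} (hx : x ∈ Icc (0 : ℝ) 1) (p : 0 < τ x) :
    3 * τ x ^ 2 ≤ 2 * θ x ^ 3 := by
  obtain ⟨z, hz, e, u⟩ := last_zero hx.1 (h.d2.cont.mono (Icc_subset_Icc_right hx.2)) h.l.le p
  have i : z ∈ Icc (0 : ℝ) 1 := ⟨hz.1, hz.2.trans hx.2⟩
  have := (((h.d1.sq.mul h.d1).cmul 2).sub (h.d2.sq.cmul 3)).mono i hx hz.2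
    (Eventually.of_forall fun y hy => by
      have := mul_nonneg (mul_nonneg (u y ⟨hy.1, hy.2.le⟩).le
        (h.nn y ⟨hz.1.trans hy.1.le, hy.2.le.trans hx.2⟩)) (h.m0 y)
      linarith)
  have := pow_nonneg (h.nn z i) 3
  rw [e] at *
  linarith

theorem en (h : Raw k m θ τ) {x : ℝ} (hx : x ∈ Icc (0 : ℝ) 1) : 3 * τ x ^ 2 ≤ 2 * θ x ^ 3 := by
  rcases lt_trichotomy (τ x) 0 with p | p | p
  · simpa using h.refl.enL (rI hx) (by simpa using p)
  · rw [p]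
    have := pow_nonneg (h.nn x hx) 3
    linarith
  · exact h.enL hx p

theorem leL (h : Raw k m θ τ) {x : ℝ} (hx : x ∈ Icc (0 : ℝ) 1) (x0 : 0 < x) (p : τ x ≤ 0) :
    θ x ≤ k ^ 2 := by
  by_contra n
  have q : ∀ y, k ^ 2 < θ y → 0 < θ y * (θ y - m y) := fun y hy =>
    mul_pos ((sq_nonneg k).trans_lt hy) (by linarith [h.m1 y])
  have a : ∀ y ∈ Icc 0 x, k ^ 2 < θ y := fun y hy => not_le.1 fun c => by
    obtain ⟨z, hz, e, u⟩ := last_zero (f := fun y => θ y - k ^ 2) hy.2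
      ((h.d1.cont.mono (Icc_subset_Icc hy.1 hx.2)).sub continuousOn_const) (sub_nonpos.2 c)
      (sub_pos.2 (not_le.1 n))
    have z0 := hy.1.trans hz.1
    have := h.d1.anti' ⟨z0, hz.2.trans hx.2⟩ hx hz.2 fun s hs =>
      (h.d2.mono ⟨z0.trans hs.1, hs.2.trans hx.2⟩ hx hs.2 (Eventually.of_forall fun t ht =>
        (q t (sub_pos.1 (u t ⟨hs.1.trans_lt ht.1, ht.2.le⟩))).le)).trans p
    exact n (by linarith)
  have := intervalIntegral.intervalIntegral_pos_of_pos_on (h.d2.int z0 hx)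
    (fun y hy => q y (a y (Ioo_subset_Icc_self hy))) x0
  rw [h.d2.ftc z0 hx, h.l] at this
  linarith

theorem le (h : Raw k m θ τ) {x : ℝ} (hx : x ∈ Icc (0 : ℝ) 1) : θ x ≤ k ^ 2 := by
  have R : x < 1 → 0 ≤ τ x → θ x ≤ k ^ 2 := fun u v => by
    simpa using h.refl.leL (rI hx) (by linarith) (by simpa using v)
  rcases hx.1.eq_or_lt with rfl | u
  · exact R one_pos h.l.ge
  rcases le_total (τ x) 0 with p | p
  · exact h.leL hx u p
  rcases hx.2.eq_or_lt with rfl | v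
  · exact h.leL hx u h.r.le
  · exact R v p

theorem pos0 (h : Raw k m θ τ) : 0 < θ 0 := by
  have i : (1 / 2 : ℝ) ∈ Ioo (0 : ℝ) 1 := ⟨by norm_num, by norm_num⟩
  have := ((Ac.id.cmul (-k)).exp.mul h.d1).anti' z0 (Ioo_subset_Icc_self i) i.1.le fun x hx => by
    have j : x ∈ Icc (0 : ℝ) 1 := ⟨hx.1, hx.2.trans i.2.le⟩
    have t : τ x ≤ k * θ x := abs_le_of_sq_le_sq' (by
      have := h.en j
      have := mul_le_mul_of_nonneg_left (h.le j) (sq_nonneg (θ x))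
      have := sq_nonneg (k * θ x)
      linarith) (mul_nonneg h.kp.le (h.nn x j)) |>.2
    have := mul_nonneg (Real.exp_pos (-k * x)).le (sub_nonneg.2 t)
    linarith
  have := mul_pos (Real.exp_pos (-k * (1 / 2))) (h.pos _ i)
  simp only [mul_zero, Real.exp_zero] at *
  linarith

theorem pos' (h : Raw k m θ τ) : ∀ x ∈ Icc (0 : ℝ) 1, 0 < θ x := fun x hx => by
  rcases hx.1.eq_or_lt with rfl | u
  · exact h.pos0
  rcases hx.2.eq_or_lt with rfl | v
  · simpa using h.refl.pos0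
  · exact h.pos x ⟨u, v⟩

theorem sol (h : Raw k m θ τ) : Sol k m θ fun x => τ x * (θ x)⁻¹ :=
  ⟨h.kp, h.meas, h.m0, h.m1, h.pos', fun _ => h.le,
    h.d1.congr fun x hx => by have := (h.pos' x hx).ne'; field_simp,
    (h.d2.mul (h.d1.inv h.pos')).congr fun x hx => by have := (h.pos' x hx).ne'; field_simp; ring,
    by simp [h.l], by simp [h.r], fun x hx => by
      have p := h.pos' x hx
      have := h.en hx
      rw [mul_pow, inv_pow, ← div_eq_mul_inv, ← mul_div_assoc, div_le_iff₀ (by positivity)]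
      linarith⟩

end Raw

/-- A solution of the homogeneous linear equation with its logarithmic derivative. -/
structure Hom (θ σ y ρ : ℝ → ℝ) : Prop where
  pos : ∀ x ∈ Icc (0 : ℝ) 1, 0 < y x
  d1 : Ac y fun x => ρ x * y x
  d2 : Ac ρ fun x => θ x - ρ x ^ 2 - 2 * σ x * ρ x

namespace Sol

theorem refl (h : Sol k m θ σ) :
    Sol k (fun x => m (1 - x)) (fun x => θ (1 - x)) fun x => -σ (1 - x) :=
  ⟨h.kp, h.meas.comp (measurable_const.sub measurable_id), fun _ => h.m0 _, fun _ => h.m1 _,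
    fun _ hx => h.pos _ (rI hx), fun _ hx => h.le _ (rI hx), h.d1.refl.congr fun _ _ => by ring,
    h.d2.refl.neg.congr fun _ _ => by ring, by simp [h.r], by simp [h.l],
    fun _ hx => by simpa using h.en _ (rI hx)⟩

theorem sg (h : Sol k m θ σ) {x : ℝ} (hx : x ∈ Icc (0 : ℝ) 1) : |σ x| ≤ k :=
  abs_le_of_sq_le_sq (by nlinarith [h.en x hx, h.le x hx, sq_nonneg k]) h.kp.le

theorem left (h : Sol k m θ σ) : ∃ y ρ, Hom θ σ y ρ ∧ ρ 0 = 0 ∧
    ∀ x ∈ Icc (0 : ℝ) 1, 0 ≤ ρ x ∧ ρ x ≤ 3 * k ∧ σ x ≤ 2 * ρ x := by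
  have kp := h.kp
  let c : ℝ → ℝ := fun x => max 0 (min x (3 * k))
  have c0 : ∀ x, 0 ≤ c x := fun x => le_max_left _ _
  have c1 : ∀ x, c x ≤ 3 * k := fun x => max_le (by positivity) (min_le_right _ _)
  have cl : ∀ x y, |c x - c y| ≤ |x - y| := fun x y =>
    (abs_max_sub_max_le_max _ _ _ _).trans (max_le (by simp)
      ((abs_min_sub_min_le_max _ _ _ _).trans (max_le le_rfl (by simp))))
  have cc : Continuous c := by fun_prop
  have P : IsPicardLindelof (fun t x => θ t - c x ^ 2 - 2 * σ t * c x) (⟨0, z0⟩ : Icc (0 : ℝ) 1) 0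
      ⟨16 * k ^ 2, by positivity⟩ 0 ⟨16 * k ^ 2, by positivity⟩ ⟨8 * k, by positivity⟩ := by
    refine ⟨fun t ht => LipschitzOnWith.of_dist_le_mul fun x _ y _ => ?_, fun x _ =>
      (h.d1.cont.sub continuousOn_const).sub ((continuousOn_const.mul h.d2.cont).mul
        continuousOn_const), fun t ht x _ => ?_, ?_⟩
    · have s := abs_le.1 (h.sg ht)
      rw [Real.dist_eq, Real.dist_eq, show θ t - c x ^ 2 - 2 * σ t * c x -
        (θ t - c y ^ 2 - 2 * σ t * c y) = -(c x + c y + 2 * σ t) * (c x - c y) by ring, abs_mul]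
      refine mul_le_mul (abs_le.2 ⟨?_, ?_⟩) (cl x y) (abs_nonneg _) (NNReal.coe_nonneg _)
      · change -(8 * k) ≤ _
        linarith [c1 x, c1 y]
      · change _ ≤ 8 * k
        linarith [c0 x, c0 y]
    · have s := abs_le.1 (h.sg ht)
      refine abs_le.2 ⟨?_, ?_⟩
      · change -(16 * k ^ 2) ≤ _
        nlinarith [c0 x, c1 x, h.pos t ht]
      · change _ ≤ 16 * k ^ 2
        nlinarith [c0 x, c1 x, h.le t ht]
    · simp
  obtain ⟨ρ, r0, hr⟩ := P.exists_eq_forall_mem_Icc_hasDerivWithinAt₀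
  have rc : ContinuousOn ρ (Icc 0 1) := fun t ht => (hr t ht).continuousWithinAt
  have cr := cc.comp_continuousOn rc
  have A := Ac.of_deriv hr ((h.d1.cont.sub (cr.pow 2)).sub ((continuousOn_const.mul h.d2.cont).mul cr))
  change ρ 0 = 0 at r0
  have b0 : ∀ x ∈ Icc (0 : ℝ) 1, 0 ≤ ρ x := fun x hx => neg_nonpos.1 <|
    A.neg.bar z0 hx hx.1 (by simp [r0]) (Eventually.of_forall fun t ht p => by
      have e : c (ρ t) = 0 := max_eq_left ((min_le_left _ _).trans (by linarith))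
      rw [e]
      linarith [h.pos t ⟨ht.1, ht.2.trans hx.2⟩])
  have b1 : ∀ x ∈ Icc (0 : ℝ) 1, ρ x ≤ 3 * k := fun x hx => sub_nonpos.1 <|
    (A.sub (Ac.const (3 * k))).bar z0 hx hx.1 (by rw [r0]; linarith)
      (Eventually.of_forall fun t ht p => by
        have i : t ∈ Icc (0 : ℝ) 1 := ⟨ht.1, ht.2.trans hx.2⟩
        have e : c (ρ t) = 3 * k := by
          simp only [c]
          rw [min_eq_right (by linarith), max_eq_right (by positivity)]
        rw [e]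
        nlinarith [h.le t i, abs_le.1 (h.sg i)])
  have B : Ac ρ fun x => θ x - ρ x ^ 2 - 2 * σ x * ρ x := A.congr fun x hx => by
    have e : c (ρ x) = ρ x := by
      simp only [c]
      rw [min_eq_left (b1 x hx), max_eq_right (b0 x hx)]
    rw [e]
  refine ⟨fun x => Real.exp (∫ s in (0 : ℝ)..x, ρ s), ρ, ⟨fun _ _ => Real.exp_pos _,
    (Ac.prim (ci rc z0 z1)).exp.congr fun _ _ => mul_comm _ _, B⟩, r0,
    fun x hx => ⟨b0 x hx, b1 x hx, sub_nonpos.1 ?_⟩⟩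
  refine (h.d2.sub (B.cmul 2)).bar z0 hx hx.1 (by simp [r0, h.l])
    (Eventually.of_forall fun t ht p => ?_)
  have i : t ∈ Icc (0 : ℝ) 1 := ⟨ht.1, ht.2.trans hx.2⟩
  nlinarith [h.en t i, b0 t i, h.m0 t]

theorem right (h : Sol k m θ σ) : ∃ y ρ, Hom θ σ y ρ ∧ ρ 1 = 0 ∧
    ∀ x ∈ Icc (0 : ℝ) 1, ρ x ≤ 0 ∧ -(3 * k) ≤ ρ x ∧ 2 * ρ x ≤ σ x := by
  obtain ⟨y, ρ, H, r0, b⟩ := h.refl.left
  refine ⟨fun x => y (1 - x), fun x => -ρ (1 - x), ⟨fun _ hx => H.pos _ (rI hx),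
    H.d1.refl.congr fun _ _ => by ring, H.d2.refl.neg.congr fun _ _ => ?_⟩, by simp [r0],
    fun x hx => ?_⟩
  · simp only [sub_sub_cancel]
    ring
  · obtain ⟨u, v, w⟩ := b _ (rI hx)
    simp only [sub_sub_cancel] at w
    refine ⟨?_, ?_, ?_⟩ <;> linarith

end Sol

end Pool.Agent.MP_478eab_an.FR
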